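import Pool.Agent.P.MP_7c5a52_nt.Ord

/-! Integral closures of polynomial rings, local rings at points, substitutions. -/

namespace Pool.Agent.P.MP_7c5a52_nt.G

open scoped IntermediateField.algebraAdjoinAdjoin

variable {K Ω : Type} [Field K] [Field Ω] [Algebra K Ω] {s : ℕ}

theorem integral_iff {A : Subalgebra K Ω} {B : Subring Ω} (hAB : ∀ z ∈ A, z ∈ B)
    (hB : ∀ z ∈ B, IsIntegral A z) {z : Ω} : IsIntegral B z ↔ IsIntegral A z := by
  let : Algebra A B := (A.val.toRingHom.codRestrict B fun z => hAB z z.2).toAlgebra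
  have : IsScalarTower A B Ω := .of_algebraMap_eq fun _ => rfl
  have : Algebra.IsIntegral A B := ⟨fun b =>
    (isIntegral_algHom_iff (IsScalarTower.toAlgHom A B Ω) Subtype.val_injective).1 (hB b b.2)⟩
  exact ⟨fun h => isIntegral_trans z h, fun h => h.tower_top⟩

theorem chart_nrm (v : Fin s → Ω) (hv : AlgebraicIndependent K v)
    (hsep : Algebra.IsSeparable (IntermediateField.adjoin K (Set.range v)) Ω)
    (L : Subfield Ω) (hKL : ∀ a : K, algebraMap K Ω a ∈ L) (hvL : ∀ i, v i ∈ L) (u : Fin s → Ω)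
    (hL : ∀ z ∈ L, z ∈ IntermediateField.adjoin K (Set.range u)) (R : Subring Ω)
    (hR : ∀ z, z ∈ R ↔ IsIntegral (Algebra.adjoin K (Set.range v)) z ∧ z ∈ L) :
    Nrm R L ∧ ∀ P : Ideal R, P.IsPrime → P.height = 1 → ∀ (a b : Fin s) (x y : R), a ≠ b →
      (x : Ω) = v a → (y : Ω) = v b → x ∈ P → y ∈ P → False := by
  set A := Algebra.adjoin K (Set.range v) with hA
  set N := IntermediateField.adjoin K (Set.range v) with hN
  have hNL : ∀ z ∈ N, z ∈ L := fun z hz =>
    (IntermediateField.adjoin_le_iff (T := L.toIntermediateField hKL)).2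
      (by rintro _ ⟨i, rfl⟩; exact hvL i) hz
  have hAR : ∀ z : A, (z : Ω) ∈ R := fun z => (hR z).2 ⟨isIntegral_algebraMap (x := z),
    hNL _ (IntermediateField.algebra_adjoin_le_adjoin K _ z.2)⟩
  let e := hv.aevalEquiv
  have : IsNoetherianRing A := isNoetherianRing_of_ringEquiv _ e.toRingEquiv
  have : IsIntegrallyClosed A := IsIntegrallyClosed.of_equiv e.toRingEquiv
  let L' : IntermediateField N Ω := L.toIntermediateField fun z => hNL z z.2
  have hfin : FiniteDimensional N (IntermediateField.adjoin N (Set.range u)) :=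
    IntermediateField.finiteDimensional_adjoin fun x _ => Algebra.IsSeparable.isIntegral N x
  have hle : L' ≤ IntermediateField.adjoin N (Set.range u) := fun z hz =>
    (IntermediateField.adjoin_le_iff
      (T := (IntermediateField.adjoin N (Set.range u)).restrictScalars K)).2
      (IntermediateField.subset_adjoin N _) (hL z hz)
  have : FiniteDimensional N L' := Module.Finite.of_injective
    (IntermediateField.inclusion hle).toLinearMap (IntermediateField.inclusion_injective hle)
  let : Algebra A R := (A.val.toRingHom.codRestrict R hAR).toAlgebra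
  let : Algebra R L' := (R.subtype.codRestrict L'.toSubring fun z => ((hR z).1 z.2).2).toAlgebra
  have : IsScalarTower A R L' := .of_algebraMap_eq fun _ => rfl
  have : IsScalarTower A R Ω := .of_algebraMap_eq fun _ => rfl
  have : IsScalarTower A N L' := .of_algebraMap_eq fun _ => rfl
  have hint : ∀ x : L', IsIntegral A x ↔ IsIntegral A (x : Ω) := fun x =>
    (isIntegral_algHom_iff (L'.val.restrictScalars A) Subtype.val_injective).symm
  have : IsIntegralClosure R A L' :=
    { algebraMap_injective := fun a b e => Subtype.ext (congrArg (fun z : L' => (z : Ω)) e)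
      isIntegral_iff := fun {x} => ⟨fun h => ⟨⟨x, (hR x).2 ⟨(hint x).1 h, x.2⟩⟩, rfl⟩, by
        rintro ⟨y, rfl⟩
        exact (hint _).2 ((hR y).1 y.2).1⟩ }
  have : Algebra.IsIntegral A R := ⟨fun b =>
    (isIntegral_algHom_iff (IsScalarTower.toAlgHom A R Ω) Subtype.val_injective).1
      ((hR b).1 b.2).1⟩
  have hfr : IsFractionRing R L' := IsIntegralClosure.isFractionRing_of_finite_extension A N L' R
  refine ⟨⟨IsIntegralClosure.isNoetherianRing A N L' R, fun z hz => ((hR z).1 hz).2,
    fun z hz => ?_, fun z hz h => (hR z).2 ⟨isIntegral_trans z h, hz⟩⟩, ?_⟩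
  · obtain ⟨a, b, hb, e⟩ := IsFractionRing.div_surjective (A := R) (⟨z, hz⟩ : L')
    exact ⟨a, b, nonZeroDivisors.ne_zero hb, (congrArg (fun z : L' => (z : Ω)) e).symm⟩
  intro P hP h1 a b x y hab hx hy hxP hyP
  have : FaithfulSMul A R := (faithfulSMul_iff_algebraMap_injective A R).2 fun a b e =>
    Subtype.ext (congrArg (fun z : R => (z : Ω)) e)
  have hex : algebraMap A R (e (MvPolynomial.X a)) = x := Subtype.ext (by
    rw [hx]; exact MvPolynomial.aeval_X v a)
  have hey : algebraMap A R (e (MvPolynomial.X b)) = y := Subtype.ext (by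
    rw [hy]; exact MvPolynomial.aeval_X v b)
  have hpr : Prime (e (MvPolynomial.X a)) := (MulEquiv.prime_iff e).2 MvPolynomial.X_prime
  have := (Ideal.span_singleton_prime hpr.ne_zero).2 hpr
  have hlt : Ideal.span {e (MvPolynomial.X a)} < P.under A := by
    refine lt_of_le_of_ne ((Ideal.span_singleton_le_iff_mem _).2 ?_) fun h => ?_
    · rw [Ideal.mem_under, hex]; exact hxP
    · have : e (MvPolynomial.X b) ∈ Ideal.span {e (MvPolynomial.X a)} := by
        rw [h, Ideal.mem_under, hey]; exact hyP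
      rw [Ideal.mem_span_singleton, map_dvd_iff e, MvPolynomial.X_dvd_X] at this
      exact hab this
  obtain ⟨P1, hP1, _, hov⟩ := Ideal.exists_ideal_lt_liesOver_of_lt P hlt
  have hx1 : x ∈ P1 := by
    rw [← hex, ← Ideal.mem_under, ← hov.over]
    exact Ideal.mem_span_singleton_self _
  have h2 := Ideal.height_add_one_le_of_lt_of_isPrime hP1
  have h3 : P1.height = 0 := by
    rw [h1] at h2
    by_contra h0
    have := Order.one_le_iff_ne_zero.2 h0
    exact absurd ((add_le_add_left this 1).trans h2) (by decide)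
  rw [Ideal.height_eq_zero_iff_eq_bot.1 h3, Ideal.mem_bot, ← hex,
    map_eq_zero_iff _ (FaithfulSMul.algebraMap_injective A R)] at hx1
  exact hpr.ne_zero hx1

/-- Everything is separable over `N` as soon as the image of `E` is. -/
theorem sep_of_gen {E : Type} [Field E] [Algebra E Ω] [Algebra.IsSeparable E Ω] (j : Fin s → Ω)
    (hE : ∀ e : E, algebraMap E Ω e ∈ IntermediateField.adjoin K (Set.range j))
    (N : IntermediateField K Ω) (hj : ∀ i, IsSeparable N (j i)) : Algebra.IsSeparable N Ω := by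
  let N' := separableClosure N Ω
  have h : ∀ e : E, algebraMap E Ω e ∈ N' := fun e =>
    (IntermediateField.adjoin_le_iff (T := N'.restrictScalars K)).2
      (by rintro _ ⟨i, rfl⟩; exact hj i) (hE e)
  let : Algebra E N' := ((algebraMap E Ω).codRestrict N'.toSubring h).toAlgebra
  have : IsScalarTower E N' Ω := .of_algebraMap_eq fun _ => rfl
  have : Algebra.IsSeparable N' Ω := Algebra.isSeparable_tower_top_of_isSeparable E N' Ω
  exact Algebra.IsSeparable.trans N N' Ω

theorem indep_of_sep {j v : Fin s → Ω} (hj : AlgebraicIndependent K j)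
    (hsep : Algebra.IsSeparable (IntermediateField.adjoin K (Set.range v)) Ω) :
    AlgebraicIndependent K v := by
  have : Algebra.IsAlgebraic (Algebra.adjoin K (Set.range v)) Ω :=
    IntermediateField.isAlgebraic_adjoin_iff_top.1 inferInstance
  exact (Algebra.IsAlgebraic.isTranscendenceBasis_of_lift_le_trdeg_of_finite K v
    hj.lift_cardinalMk_le_trdeg).1

theorem sep_of_pow_mem {N : IntermediateField K Ω} {z : Ω} {n : ℕ} (hn : (n : Ω) ≠ 0)
    (hz : z ≠ 0) (h : z ^ n ∈ N) : IsSeparable N z := by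
  have hn' : (n : N) ≠ 0 := fun e => hn (by simpa using congrArg (fun z : N => (z : Ω)) e)
  have h0 : (⟨_, h⟩ : N) ≠ 0 := fun e => pow_ne_zero n hz (congrArg (fun z : N => (z : Ω)) e)
  exact (Polynomial.separable_X_pow_sub_C _ hn' h0).of_dvd (minpoly.dvd N z (by simp))

open MvPolynomial

variable (K) in
/-- The rational function `z` of `v` is regular at the point `P` with value `t`. -/
def Val (v P : Fin s → Ω) (z t : Ω) : Prop :=
  ∃ n d : MvPolynomial (Fin s) K, aeval P d ≠ 0 ∧ z * aeval v d = aeval v n ∧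
    t * aeval P d = aeval P n

variable {v v' P : Fin s → Ω}

theorem Val.poly (a : MvPolynomial (Fin s) K) : Val K v P (aeval v a) (aeval P a) :=
  ⟨a, 1, by simp, by simp, by simp⟩

theorem Val.const (a : K) : Val K v P (algebraMap K Ω a) (algebraMap K Ω a) := by
  simpa using Val.poly (v := v) (P := P) (C a)

theorem Val.one : Val K v P 1 1 := by simpa using Val.const (v := v) (P := P) (1 : K)

theorem Val.mul {z z' t t' : Ω} (h : Val K v P z t) (h' : Val K v P z' t') :
    Val K v P (z * z') (t * t') := by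
  obtain ⟨n, d, h, e, f⟩ := h
  obtain ⟨n', d', h', e', f'⟩ := h'
  exact ⟨n * n', d * d', by rw [map_mul]; exact mul_ne_zero h h', by
    rw [map_mul, map_mul, ← e, ← e']; ring, by rw [map_mul, map_mul, ← f, ← f']; ring⟩

theorem Val.add {z z' t t' : Ω} (h : Val K v P z t) (h' : Val K v P z' t') :
    Val K v P (z + z') (t + t') := by
  obtain ⟨n, d, h, e, f⟩ := h
  obtain ⟨n', d', h', e', f'⟩ := h'
  exact ⟨n * d' + n' * d, d * d', by rw [map_mul]; exact mul_ne_zero h h', by
    rw [map_add, map_mul, map_mul, map_mul, ← e, ← e']; ring, by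
    rw [map_add, map_mul, map_mul, map_mul, ← f, ← f']; ring⟩

theorem Val.pow {z t : Ω} (h : Val K v P z t) (n : ℕ) : Val K v P (z ^ n) (t ^ n) := by
  induction n with
  | zero => simpa using Val.one
  | succ n ih => rw [pow_succ, pow_succ]; exact ih.mul h

theorem Val.inv {z t : Ω} (h : Val K v P z t) (hz : z ≠ 0) (ht : t ≠ 0) :
    Val K v P z⁻¹ t⁻¹ := by
  obtain ⟨n, d, h, e, f⟩ := h
  exact ⟨d, n, f ▸ mul_ne_zero ht h, by rw [← e, inv_mul_cancel_left₀ hz],
    by rw [← f, inv_mul_cancel_left₀ ht]⟩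

theorem Val.unique (hv : AlgebraicIndependent K v) {z t t' : Ω} (h : Val K v P z t)
    (h' : Val K v P z t') : t = t' := by
  obtain ⟨n, d, h, e, f⟩ := h
  obtain ⟨n', d', h', e', f'⟩ := h'
  have e1 : n * d' = n' * d := hv (by
    simp only [map_mul, ← e, ← e']
    ring)
  have e2 := congrArg (aeval P) e1
  rw [map_mul, map_mul, ← f, ← f'] at e2
  exact mul_right_cancel₀ (mul_ne_zero h h') (by linear_combination e2)

variable (K) in
/-- The local ring at the point `P`. -/
def locO (v P : Fin s → Ω) : Subring Ω where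
  carrier := {z | ∃ t, Val K v P z t}
  mul_mem' := by
    rintro z z' ⟨t, h⟩ ⟨t', h'⟩
    exact ⟨_, h.mul h'⟩
  one_mem' := ⟨1, Val.one⟩
  add_mem' := by
    rintro z z' ⟨t, h⟩ ⟨t', h'⟩
    exact ⟨_, h.add h'⟩
  zero_mem' := ⟨_, by simpa using Val.const (v := v) (P := P) (0 : K)⟩
  neg_mem' := by
    rintro z ⟨t, h⟩
    exact ⟨_, by simpa using (Val.const (v := v) (P := P) (-1 : K)).mul h⟩

theorem Val.un {z t : Ω} (h : Val K v P z t) (hz : z ≠ 0) (ht : t ≠ 0) : Un (locO K v P) z :=
  ⟨⟨_, h⟩, ⟨_, h.inv hz ht⟩, hz⟩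

theorem aeval_mem_locO (a : MvPolynomial (Fin s) K) : aeval v a ∈ locO K v P := ⟨_, Val.poly a⟩

theorem aeval_mem_adjoin (a : MvPolynomial (Fin s) K) :
    aeval v a ∈ IntermediateField.adjoin K (Set.range v) :=
  (IntermediateField.mem_adjoin_range_iff K v _).2 ⟨a, 1, by simp⟩

theorem aeval_ne (hv : AlgebraicIndependent K v) {d : MvPolynomial (Fin s) K}
    (h : aeval P d ≠ 0) : aeval v d ≠ 0 := fun e =>
  h (by rw [hv.eq_zero_of_aeval_eq_zero d e, map_zero])

theorem locO_int (hv : AlgebraicIndependent K v) {z : Ω}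
    (hz : z ∈ IntermediateField.adjoin K (Set.range v)) (h : IsIntegral (locO K v P) z) :
    z ∈ locO K v P := by
  let A0 := MvPolynomial (Fin s) K
  let N := IntermediateField.adjoin K (Set.range v)
  let : Algebra A0 Ω := (aeval v).toRingHom.toAlgebra
  let : Algebra A0 (locO K v P) :=
    ((aeval v).toRingHom.codRestrict (locO K v P) aeval_mem_locO).toAlgebra
  have : IsScalarTower A0 (locO K v P) Ω := .of_algebraMap_eq fun _ => rfl
  let S : Submonoid A0 := (nonZeroDivisors Ω).comap (aeval (R := K) P)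
  have hS : ∀ d : A0, d ∈ S ↔ aeval P d ≠ 0 := fun d => mem_nonZeroDivisors_iff_ne_zero
  have : IsLocalization S (locO K v P) :=
    { map_units := fun y => by
        obtain ⟨u, hu⟩ := ((Val.poly y.1).un (aeval_ne hv ((hS y).1 y.2))
          ((hS y).1 y.2)).exists_unit
        exact (Subtype.ext hu : (u : locO K v P) = algebraMap A0 _ y) ▸ u.isUnit
      surj := fun z => by
        obtain ⟨t, n, d, hd, e, _⟩ := z.2
        exact ⟨(n, ⟨d, (hS d).2 hd⟩), Subtype.ext e⟩
      exists_of_eq := fun {x y} e => ⟨1, by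
        rw [(hv (congrArg (fun z : locO K v P => (z : Ω)) e) : x = y)]⟩ }
  obtain ⟨m, hm⟩ := h.exists_multiple_integral_of_isLocalization S z
  have hm' : (m • z : Ω) = z * aeval v m.1 := by
    rw [mul_comm]; rfl
  let A := Algebra.adjoin K (Set.range v)
  let e := hv.aevalEquiv
  have : IsIntegrallyClosed A := IsIntegrallyClosed.of_equiv e.toRingEquiv
  let : Algebra A0 A := e.toRingEquiv.toRingHom.toAlgebra
  have : IsScalarTower A0 A Ω := .of_algebraMap_eq fun _ => rfl
  have hN : (m • z : Ω) ∈ N := hm' ▸ N.mul_mem hz (aeval_mem_adjoin _)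
  have h2 : IsIntegral A (⟨_, hN⟩ : N) :=
    (isIntegral_algHom_iff (IsScalarTower.toAlgHom A N Ω) Subtype.val_injective).1 hm.tower_top
  obtain ⟨a, ha⟩ := IsIntegrallyClosed.algebraMap_eq_of_integral h2
  obtain ⟨n, rfl⟩ := e.surjective a
  exact ⟨aeval P n / aeval P m.1, n, m, (hS m).1 m.2,
    hm' ▸ (congrArg (fun z : N => (z : Ω)) ha).symm, div_mul_cancel₀ _ ((hS m).1 m.2)⟩

/-- An automorphism fixing the point `P` does not change the values at `P`. -/
theorem locO_eigen (hv : AlgebraicIndependent K v) (σ : Ω →+* Ω)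
    (hK : ∀ a : K, σ (algebraMap K Ω a) = algebraMap K Ω a)
    (hl : ∀ i, Val K v P (σ (v i)) (P i)) {w B β : Ω} (hw : Un (locO K v P) w)
    (hB : Val K v P B β) (e : σ w = B * w) : β = 1 := by
  have h1 : ∀ a : MvPolynomial (Fin s) K, Val K v P (σ (aeval v a)) (aeval P a) := fun a => by
    induction a using MvPolynomial.induction_on with
    | C a => simpa [hK] using Val.const (v := v) (P := P) a
    | add a b ha hb => simpa only [map_add] using ha.add hb
    | mul_X a i ha => simpa only [map_mul, aeval_X] using ha.mul (hl i)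
  obtain ⟨⟨t, ht⟩, ⟨t', ht'⟩, h0⟩ := hw
  have e1 : t * t' = 1 := by
    have := ht.mul ht'
    rw [mul_inv_cancel₀ h0] at this
    exact this.unique hv Val.one
  obtain ⟨n, d, hd, en, fn⟩ := id ht
  have e2 := (hB.mul ht).mul (h1 d)
  rw [← e, ← map_mul, en] at e2
  have e3 := e2.unique hv (h1 n)
  rw [← fn] at e3
  exact mul_right_cancel₀ (left_ne_zero_of_mul_eq_one e1)
    (by rw [mul_right_cancel₀ hd e3, one_mul])

theorem exists_sigma {E : Type} [Field E] [Algebra E Ω] [Normal E Ω]
    (hv : AlgebraicIndependent K v) (hv' : AlgebraicIndependent K v') (ρ : K →+* K) (S : Set Ω)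
    (hS : ∀ e : E, algebraMap E Ω e ∈ Subfield.closure S)
    (h : ∀ z ∈ S, ∃ n d : MvPolynomial (Fin s) K, aeval v d ≠ 0 ∧ z * aeval v d = aeval v n ∧
      z * aeval v' (map ρ d) = aeval v' (map ρ n)) :
    ∃ σ : Ω ≃ₐ[E] Ω, ∀ a : MvPolynomial (Fin s) K, σ (aeval v a) = aeval v' (map ρ a) := by
  let N := IntermediateField.adjoin K (Set.range v)
  let ι : MvPolynomial (Fin s) K →+* Ω := (aeval v').toRingHom.comp (map ρ)
  have hι : Function.Injective ι := fun _ _ e => map_injective ρ ρ.injective (hv' e)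
  let τ : N →+* Ω := (IsFractionRing.lift (K := FractionRing (MvPolynomial (Fin s) K)) hι).comp
    hv.aevalEquivField.symm.toRingEquiv.toRingHom
  have hτ : ∀ a, τ ⟨aeval v a, aeval_mem_adjoin a⟩ = ι a := fun a => by
    have : (⟨aeval v a, aeval_mem_adjoin a⟩ : N) = hv.aevalEquivField (algebraMap _ _ a) :=
      Subtype.ext (hv.aevalEquivField_algebraMap_apply_coe a).symm
    rw [this]
    simp [τ]
  have hfix : Subfield.closure S ≤ (τ.eqLocusField N.val.toRingHom).map N.val.toRingHom := by
    refine Subfield.closure_le.2 fun z hs => ?_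
    obtain ⟨n, d, hd, e, e'⟩ := h z hs
    have hsN : z ∈ N := by
      rw [eq_div_of_mul_eq hd e]
      exact N.div_mem (aeval_mem_adjoin n) (aeval_mem_adjoin d)
    refine ⟨⟨z, hsN⟩, ?_, rfl⟩
    have hd' : ι d ≠ 0 := (map_ne_zero_iff ι hι).2 fun e => hd (by rw [e, map_zero])
    have : (⟨z, hsN⟩ : N) * ⟨aeval v d, aeval_mem_adjoin d⟩ = ⟨aeval v n, aeval_mem_adjoin n⟩ :=
      Subtype.ext e
    have := congrArg τ this
    rw [map_mul, hτ, hτ] at this
    exact mul_right_cancel₀ hd' (this.trans e'.symm)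
  have hEN : ∀ e : E, algebraMap E Ω e ∈ N := fun e => by
    obtain ⟨z, _, hz⟩ := hfix (hS e)
    exact hz ▸ z.2
  let : Algebra E N := ((algebraMap E Ω).codRestrict N.toSubring hEN).toAlgebra
  have : IsScalarTower E N Ω := .of_algebraMap_eq fun _ => rfl
  let τ' : N →ₐ[E] Ω := ⟨τ, fun e => by
    obtain ⟨z, hz, hz'⟩ := hfix (hS e)
    have : algebraMap E N e = z := Subtype.ext hz'.symm
    rw [this]
    exact hz.trans hz'⟩
  refine ⟨AlgEquiv.ofBijective (τ'.liftNormal Ω) (AlgHom.normal_bijective E Ω Ω _), fun a => ?_⟩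
  exact (τ'.liftNormal_commutes Ω ⟨aeval v a, aeval_mem_adjoin a⟩).trans (hτ a)

end Pool.Agent.P.MP_7c5a52_nt.G
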