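import Pool.Agent.P.MP_7c5a52_nt.G.Setup

/-! Charts and prime divisors of `X_0^r(p)`. -/

open Polynomial

set_option linter.unusedSectionVars false

namespace Pool.Agent.P.MP_7c5a52_nt.G

variable {k F E Ω : Type} [Field k] [Fintype k] [Field F] [Field E] [Field Ω] [Algebra k Ω]
  [Algebra F Ω] [Algebra E Ω] {T : F} {s : ℕ} {j : Fin s → E} [Algebra k F] [Algebra F E]
  [IsScalarTower F E Ω] [IsScalarTower k F Ω] [GenJ F j] [GenT k T]
  {p : k[X]} {c c' : Ω}

/-- Weight zero monomials do not see the rescaling. -/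
theorem mono_resc {x : Ω} (hx : x ≠ 0) (a : Fin (s + 1) → ℕ) (m : ℕ) (i : Fin (s + 1))
    (h : ∑ l, a l * wt k l = m * wt k i) :
    (∏ l, g Ω j l ^ a l) / g Ω j i ^ m = (∏ l, resc k j x l ^ a l) / resc k j x i ^ m := by
  simp only [resc, mul_pow, Finset.prod_mul_distrib, ← pow_mul, Finset.prod_pow_eq_pow_sum]
  rw [show ∑ l, wt k l * a l = wt k i * m by
    simpa only [mul_comm] using h, mul_div_mul_right _ _ (pow_ne_zero _ hx)]

variable (k Ω j) in
/-- Coordinates of a polynomial subring of a chart. -/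
noncomputable def YY (i l : Fin (s + 1)) : Ω := g Ω j l ^ wt k i / g Ω j i ^ wt k l

theorem wt_ne (l : Fin (s + 1)) : wt k l ≠ 0 :=
  Nat.sub_ne_zero_of_lt (Nat.one_lt_pow (Nat.succ_ne_zero _) Fintype.one_lt_card)

theorem wt_cast (l : Fin (s + 1)) : (wt k l : Ω) ≠ 0 := by
  rw [wt, Nat.cast_sub (Nat.one_le_iff_ne_zero.2 (pow_ne_zero _ q_ne)), Nat.cast_pow, q_cast k]
  simp

variable (F) in
include F in
theorem YY_self (i : Fin (s + 1)) : YY k Ω j i i = 1 := div_self (pow_ne_zero _ (g_ne F i))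

theorem YY_sum (i l : Fin (s + 1)) :
    ∑ l', (Pi.single l (wt k i) : Fin (s + 1) → ℕ) l' * wt k l' = wt k l * wt k i := by
  rw [Finset.sum_eq_single l (fun b _ hb => by simp [hb]) (by simp), Pi.single_eq_same, mul_comm]

theorem prod_single (G : Fin (s + 1) → Ω) (l : Fin (s + 1)) (n : ℕ) :
    ∏ l', G l' ^ (Pi.single l n : Fin (s + 1) → ℕ) l' = G l ^ n := by
  rw [Finset.prod_eq_single l (fun b _ hb => by simp [hb]) (by simp), Pi.single_eq_same]

theorem YY_mem (i l : Fin (s + 1)) : YY k Ω j i l ∈ chartBase k F Ω j i :=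
  Subring.subset_closure (.inr ⟨_, _, YY_sum i l, by rw [prod_single]; rfl⟩)

theorem K_mem (i : Fin (s + 1)) {y : Ω} (hy : y ∈ Fsep F Ω) : y ∈ chartBase k F Ω j i :=
  Subring.subset_closure (.inl hy)

theorem mem_chart {i : Fin (s + 1)} {z : Ω} :
    z ∈ chart k T j c i ↔ IsIntegral (chartBase k F Ω j i) z ∧ z ∈ funField k T j c := Iff.rfl

theorem K_fun {y : Ω} (hy : y ∈ Fsep F Ω) : y ∈ funField k T j c :=
  mem_funField.2 fun _ _ h => h y hy

theorem g_fun (l : Fin (s + 1)) : g Ω j l ∈ funField k T j c :=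
  mem_funField.2 fun σ _ _ => fix_g σ l

theorem base_le (i : Fin (s + 1)) : chartBase k F Ω j i ≤ chart k T j c i := fun z hz =>
  ⟨isIntegral_algebraMap (x := (⟨z, hz⟩ : chartBase k F Ω j i)),
    (Subring.closure_le (t := (funField k T j c).toSubring)).2 (by
      rintro _ (h | ⟨a, m, _, rfl⟩)
      · exact K_fun h
      · exact (funField k T j c).div_mem (prod_mem fun l _ => pow_mem (g_fun l) _)
          (pow_mem (g_fun i) _)) hz⟩

theorem map_base (σ : Ω ≃ₐ[E] Ω) (i : Fin (s + 1)) {z : Ω} (hz : z ∈ chartBase k F Ω j i) :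
    σ z ∈ chartBase k F Ω j i :=
  (Subring.closure_le (t := (chartBase k F Ω j i).comap (σ : Ω →+* Ω))).2 (by
    rintro _ (h | ⟨a, m, h, rfl⟩)
    · exact K_mem i (map_Fsep σ h)
    · refine Subring.subset_closure (.inr ⟨a, m, h, ?_⟩)
      simp [fix_g]) hz

theorem map_chart {σ : Ω ≃ₐ[E] Ω} (hσ : σ ∈ gal k T j c) (i : Fin (s + 1)) {z : Ω}
    (hz : z ∈ chart k T j c i) : σ z ∈ chart k T j c i :=
  ⟨hz.1.map_of_comp_eq (((σ : Ω →+* Ω).comp (chartBase k F Ω j i).subtype).codRestrict _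
    fun z => map_base σ i z.2) (σ : Ω →+* Ω) rfl, map_funField hσ hz.2⟩

theorem map_primeDiv {σ : Ω ≃ₐ[E] Ω} (hσ : σ ∈ gal k T j c) {V : Subring Ω}
    (hV : V ∈ primeDiv k T j c) : V.map (σ : Ω →+* Ω) ∈ primeDiv k T j c := by
  obtain ⟨i, P, hP, h1, hV⟩ := hV
  let e : chart k T j c i ≃+* chart k T j c i :=
    { toFun := fun z => ⟨σ⁻¹ z, map_chart (inv_mem hσ) i z.2⟩
      invFun := fun z => ⟨σ z, map_chart hσ i z.2⟩
      left_inv := fun z => Subtype.ext (σ.apply_symm_apply z)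
      right_inv := fun z => Subtype.ext (σ.symm_apply_apply z)
      map_mul' := fun x y => Subtype.ext (map_mul σ⁻¹ _ _)
      map_add' := fun x y => Subtype.ext (map_add σ⁻¹ _ _) }
  refine ⟨i, P.comap e, hP.comap e, by rw [e.height_comap, h1], fun z => ⟨?_, ?_⟩⟩
  · rintro ⟨_, hz, rfl⟩
    obtain ⟨x, y, hy, rfl⟩ := (hV _).1 hz
    exact ⟨e.symm x, e.symm y, by rwa [Ideal.mem_comap, e.apply_symm_apply], map_div₀ σ _ _⟩
  · rintro ⟨x, y, hy, rfl⟩
    refine ⟨_, (hV _).2 ⟨e x, e y, hy, rfl⟩, ?_⟩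
    rw [map_div₀]
    exact congrArg₂ _ (σ.apply_symm_apply _) (σ.apply_symm_apply _)

variable [IsSepClosure E Ω]

theorem Hyp.chart (H : Hyp T j p c) (i : Fin (s + 1)) :
    Nrm (chart k T j c i) (funField k T j c).toSubfield ∧ ∀ P : Ideal (chart k T j c i), P.IsPrime →
      P.height = 1 → ∀ (a b : Fin s) (x y : chart k T j c i), a ≠ b →
      (x : Ω) = YY k Ω j i (i.succAbove a) →
      (y : Ω) = YY k Ω j i (i.succAbove b) → x ∈ P → y ∈ P → False := by
  let v : Fin s → Ω := fun l => YY k Ω j i (i.succAbove l)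
  let A := Algebra.adjoin (Fsep F Ω) (Set.range v)
  let N := IntermediateField.adjoin (Fsep F Ω) (Set.range v)
  have hY : ∀ l, YY k Ω j i l ∈ A := fun l => by
    rcases eq_or_ne l i with rfl | h
    · rw [YY_self F]; exact one_mem _
    · obtain ⟨l, rfl⟩ := Fin.exists_succAbove_eq h
      exact Algebra.subset_adjoin ⟨l, rfl⟩
  have hYN : ∀ l, YY k Ω j i l ∈ N := fun l => IntermediateField.algebra_adjoin_le_adjoin _ _ (hY l)
  have hsep : Algebra.IsSeparable N Ω := sep_of_gen (E := E) (jj Ω j) E_mem' _ fun l => by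
    refine sep_of_pow_mem (n := wt k i * wt k (0 : Fin (s + 1)))
      (by rw [Nat.cast_mul]; exact mul_ne_zero (wt_cast i) (wt_cast 0)) (g_ne F _) ?_
    have : jj Ω j l ^ (wt k i * wt k (0 : Fin (s + 1))) =
        YY k Ω j i l.succ ^ wt k (0 : Fin (s + 1)) / YY k Ω j i 0 ^ wt k l.succ := by
      have := g_ne F (Ω := Ω) (j := j) i
      simp only [YY, g_zero, jj, div_pow, one_pow, ← pow_mul, mul_comm (wt k (0 : Fin (s + 1)))]
      field_simp
    rw [this]
    exact div_mem (pow_mem (hYN _) _) (pow_mem (hYN _) _)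
  refine chart_nrm v (indep_of_sep (jj_indep (j := j)) hsep) hsep _ (fun a => K_fun a.2)
    (fun l => (base_le i (YY_mem i _)).2) (vv k T j c) (fun z hz => H.le hz) _ fun z => ?_
  rw [mem_chart, integral_iff (A := A)]
  · rfl
  · let B : Subalgebra (Fsep F Ω) Ω :=
      { chartBase k F Ω j i with algebraMap_mem' := fun a => K_mem i a.2 }
    exact Algebra.adjoin_le (S := B) (by rintro _ ⟨l, rfl⟩; exact YY_mem i _)
  · refine (Subring.closure_le (t := (integralClosure A Ω).toSubring)).2 ?_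
    rintro _ (h | ⟨a, m, h, rfl⟩)
    · exact isIntegral_algebraMap (x := (⟨_, A.algebraMap_mem ⟨_, h⟩⟩ : A))
    · refine IsIntegral.of_pow (Nat.pos_of_ne_zero (wt_ne (k := k) i)) ?_
      have : ((∏ l, g Ω j l ^ a l) / g Ω j i ^ m) ^ wt k i = ∏ l, YY k Ω j i l ^ a l := by
        simp only [YY, div_pow, Finset.prod_div_distrib, ← pow_mul, ← Finset.prod_pow,
          Finset.prod_pow_eq_pow_sum, mul_comm (wt k _)]
        rw [show ∑ l, a l * wt k l = m * wt k i from h]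
      rw [this]
      have hm : ∏ l, YY k Ω j i l ^ a l ∈ A := prod_mem fun l _ => pow_mem (hY l) _
      exact isIntegral_algebraMap (x := (⟨_, hm⟩ : A))

variable (s) in
/-- The elliptic point. -/
noncomputable abbrev PP (k : Type) [Field k] [Algebra k Ω] (θ : Ω) : Fin s → Ω :=
  co s (aeval (R := k) θ).toLinearMap

theorem Hyp.val_psi (H : Hyp T j p c) {θ : Ω} (hθ : aeval θ p = 0) (a : k[X]) :
    Val (Fsep F Ω) (vv k T j c) (PP s k θ) (psi k T j c a) (aeval θ a) := by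
  have := val_F (vv k T j c) (PP s k θ) (lin s p F a)
  rwa [H.sol.aeval_lin H.deg, (sol_ell H.irr H.deg hθ 0).aeval_lin H.deg] at this

theorem Hyp.val_resc (H : Hyp T j p c) {θ : Ω} (hθ : aeval θ p = 0) (l : Fin (s + 1)) :
    Val (Fsep F Ω) (vv k T j c) (PP s k θ) (resc k j c l)
      ((Pi.single (Fin.last s) (θ - TT Ω T) : Fin (s + 1) → Ω) l) := by
  have S := sol_ell H.irr H.deg hθ (TT Ω T)
  refine ⟨MvPolynomial.map (algebraMap F _) (nn s p T l),
    MvPolynomial.map (algebraMap F _) (dd k s F), ?_⟩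
  simp only [MvPolynomial.aeval_map_algebraMap]
  exact ⟨S.dd_ne H.irr H.deg, H.sol.cramer H.deg l, S.cramer H.deg l⟩

/-- The elliptic point lies on the open part. -/
theorem Hyp.le_locO (H : Hyp T j p c) {θ : Ω} (hθ : aeval θ p = 0) {z : Ω}
    (hz : z ∈ MP_7c5a52_nt.chart k T j c (Fin.last s)) :
    z ∈ locO (Fsep F Ω) (vv k T j c) (PP s k θ) := by
  have hr' := ((H.val_resc hθ (Fin.last s)).un (resc_ne F H.ne _) (by
    rw [Pi.single_eq_same]
    exact fun e => aeval_TT H.irr.ne_zero (sub_eq_zero.1 e ▸ hθ))).2.1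
  have hr : ∀ l, resc k j c l ∈ locO (Fsep F Ω) (vv k T j c) (PP s k θ) := fun l =>
    ⟨_, H.val_resc hθ l⟩
  have hB : chartBase k F Ω j (Fin.last s) ≤ locO (Fsep F Ω) (vv k T j c) (PP s k θ) :=
    Subring.closure_le.2 (by
      rintro _ (h | ⟨a, m, h, rfl⟩)
      · exact ⟨_, Val.const (⟨_, h⟩ : Fsep F Ω)⟩
      · rw [mono_resc H.ne a m _ h, div_eq_mul_inv, ← inv_pow]
        exact mul_mem (prod_mem fun l _ => pow_mem (hr l) _) (pow_mem hr' _))
  exact locO_int H.indep (H.le hz.2)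
    (hz.1.map_of_comp_eq (Subring.inclusion hB) (RingHom.id Ω) rfl)

theorem Hyp.dvr (H : Hyp T j p c) {V : Subring Ω}
    (hV : V ∈ primeDiv k T j c) : IsDiscreteValuationRing V := by
  obtain ⟨i, P, hP, h1, hV⟩ := hV
  exact (H.chart i).1.dvr hP h1 hV

theorem Hyp.ord (H : Hyp T j p c) {V : Subring Ω}
    (hV : V ∈ primeDiv k T j c) {u : Ω} (hu : u ∈ funField k T j c) (h0 : u ≠ 0) :
    ∃ n, IsOrd V u n := by
  obtain ⟨i, P, hP, h1, hV⟩ := hV
  exact (H.chart i).1.exists_ord hP h1 hV hu h0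

theorem Hyp.exists_div (H : Hyp T j p c) {u : Ω} (hu : u ∈ funField k T j c)
    (h0 : u ≠ 0) {m : ℤ} (hm : m ≠ 0) (h : ∀ V ∈ primeDiv k T j c, ∃ n, IsOrd V u (m * n)) :
    ∃ D : WDiv (primeDiv k T j c), ∀ V ∈ primeDiv k T j c, IsOrd V u (m * D.1 V) := by
  classical
  choose! n hn using h
  let n' : Subring Ω → ℤ := fun V => if V ∈ primeDiv k T j c then n V else 0
  have hfin : n'.support.Finite := by
    refine (Set.finite_iUnion fun i => (H.chart i).1.finite hu h0).subset fun V hV => ?_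
    have hV1 : V ∈ primeDiv k T j c := by_contra fun h => hV (if_neg h)
    have := H.dvr hV1
    obtain ⟨i, hi⟩ := id hV1
    refine Set.mem_iUnion.2 ⟨i, hi, fun hu => hV ?_⟩
    have := (hn V hV1).unique (isOrd_zero_iff.2 hu)
    simp only [n', if_pos hV1]
    exact (mul_eq_zero.1 this).resolve_left hm
  refine ⟨⟨Finsupp.ofSupportFinite n' hfin, (Finsupp.mem_supported' _ _).2 fun V hV => if_neg hV⟩,
    fun V hV => ?_⟩
  have : n' V = n V := if_pos hV
  change IsOrd V u (m * n' V)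
  exact this ▸ hn V hV

theorem Hyp.of_prin (H : Hyp T j p c) {D : WDiv (primeDiv k T j c)}
    (hD : D ∈ prin (funField k T j c).toSubfield (primeDiv k T j c)) :
    ∃ u ∈ funField k T j c, u ≠ 0 ∧ ∀ V ∈ primeDiv k T j c, IsOrd V u (D.1 V) := by
  induction hD using Submodule.span_induction with
  | mem D h => exact h
  | zero =>
    refine ⟨1, one_mem _, one_ne_zero, fun V hV => ?_⟩
    have := H.dvr hV
    exact isOrd_zero_iff.2 ⟨one_mem _, by simp, one_ne_zero⟩
  | add D D' _ _ h h' =>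
    obtain ⟨u, h1, h2, h3⟩ := h
    obtain ⟨u', h1', h2', h3'⟩ := h'
    refine ⟨u * u', mul_mem h1 h1', mul_ne_zero h2 h2', fun V hV => ?_⟩
    have := H.dvr hV
    exact (h3 V hV).mul (h3' V hV)
  | smul a D _ h =>
    obtain ⟨u, h1, h2, h3⟩ := h
    refine ⟨u ^ a, zpow_mem h1 a, zpow_ne_zero a h2, fun V hV => ?_⟩
    have := H.dvr hV
    exact (h3 V hV).zpow a

end Pool.Agent.P.MP_7c5a52_nt.G
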