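import Pool.Agent.P.MP_7c5a52_nt.G.Geo

/-! A rational torsion class that is not cuspidal. -/

open Polynomial

set_option linter.unusedSectionVars false

namespace Pool.Agent.P.MP_7c5a52_nt.G

variable {k F E Ω : Type} [Field k] [Fintype k] [Field F] [Field E] [Field Ω] [Algebra k Ω]
  [Algebra F Ω] [Algebra E Ω] {T : F} {s : ℕ} [Algebra k F] [Algebra F E]
  [IsScalarTower F E Ω] [IsScalarTower k F Ω] [GenT k T]
  [IsSepClosure E Ω] {p : k[X]} {c : Ω} {m : ℕ} {Cs : Finset Ω} [DecidableEq Ω]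

theorem ord_pow {V : Subring Ω} [IsDiscreteValuationRing V] {f : Ω} {n : ℤ} (h : IsOrd V f n)
    (m : ℕ) : IsOrd V (f ^ m) (m * n) := by
  simpa using h.zpow m

theorem h_ne : ∏ y ∈ Cs.erase 0, y ≠ 0 :=
  Finset.prod_ne_zero_iff.2 fun _ hy => (Finset.mem_erase.1 hy).1

section
variable {j : Fin s → E} [GenJ F j]

theorem h_fix (hC : ∀ y, y ∈ Cs ↔ ∃ a, orb k T j c a = y) {σ : Ω ≃ₐ[E] Ω}
    (hσ : σ ∈ gal k T j c) : σ (∏ y ∈ Cs.erase 0, y) = ∏ y ∈ Cs.erase 0, y := by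
  have h : (Cs.erase 0).image σ = Cs.erase 0 := by
    refine Finset.eq_of_subset_of_card_le (fun y hy => ?_)
      (Finset.card_image_of_injective _ σ.injective).ge
    obtain ⟨z, hz, rfl⟩ := Finset.mem_image.1 hy
    obtain ⟨h0, hz⟩ := Finset.mem_erase.1 hz
    exact Finset.mem_erase.2 ⟨(_root_.map_ne_zero σ).2 h0,
      (hC _).2 ((mem_gal.1 hσ).le ⟨z, (hC z).1 hz, rfl⟩)⟩
  conv_rhs => rw [← h, Finset.prod_image σ.injective.injOn]
  rw [map_prod]

theorem h_mem (hC : ∀ y, y ∈ Cs ↔ ∃ a, orb k T j c a = y) :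
    ∏ y ∈ Cs.erase 0, y ∈ funField k T j c := mem_funField.2 fun _ hσ _ => h_fix hC hσ

theorem Hyp.rational (H : Hyp T j p c) {h : Ω} (hh : ∀ σ ∈ gal k T j c, σ h = h) (hm : m ≠ 0)
    {D : WDiv (primeDiv k T j c)} (hD : ∀ V ∈ primeDiv k T j c, IsOrd V h (m * D.1 V)) :
    IsRational k T j ((prin (funField k T j c).toSubfield (primeDiv k T j c)).mkQ D) := by
  intro ρ
  obtain ⟨σ, hK, hv⟩ := H.sigma H ρ
  obtain ⟨b, hb, e⟩ := H.scal H σ hv
  have hσ := gal_of H.lev H.irr (not_dvd_C H.irr hb) e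
  have hinj : Function.Injective (Subring.map (σ : Ω →+* Ω)) := fun V V' e =>
    SetLike.coe_injective (σ.injective.image_injective (congrArg SetLike.coe e))
  refine ⟨σ, hσ, hK, D, D, rfl, rfl, Finsupp.ext fun V => ?_⟩
  have hVe : (V.map ((σ⁻¹ : Ω ≃ₐ[E] Ω) : Ω →+* Ω)).map (σ : Ω →+* Ω) = V := by
    rw [Subring.map_map]
    refine Subring.ext fun z => ⟨?_, fun hz => ⟨z, hz, σ.apply_symm_apply z⟩⟩
    rintro ⟨z, hz, rfl⟩
    exact (σ.apply_symm_apply z).symm ▸ hz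
  have h4 : D.1.mapDomain (Subring.map (σ : Ω →+* Ω)) V =
      D.1 (V.map ((σ⁻¹ : Ω ≃ₐ[E] Ω) : Ω →+* Ω)) := by
    conv_lhs => rw [← hVe]
    exact Finsupp.mapDomain_apply hinj _ _
  rw [h4]
  by_cases hV : V ∈ primeDiv k T j c
  · have := H.dvr hV
    have h1 := (hD _ (map_primeDiv (inv_mem hσ) hV)).map (σ : Ω →+* Ω)
    rw [hVe, RingHom.coe_coe, hh σ hσ] at h1
    exact mul_left_cancel₀ (Int.natCast_ne_zero.2 hm) ((hD V hV).unique h1)
  · rw [(Finsupp.mem_supported' _ _).1 D.2 V hV, (Finsupp.mem_supported' _ _).1 D.2 _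
      fun h => hV (hVe ▸ map_primeDiv hσ h)]

theorem Hyp.not_cusp (H : Hyp T j p c) (hcard : Cs.card = Fintype.card k ^ p.natDegree)
    (hC : ∀ y, y ∈ Cs ↔ ∃ a, orb k T j c a = y) (hm : 1 < m)
    (hN : m ∣ ∑ i ∈ Finset.range (s + 1), Fintype.card k ^ i) {D : WDiv (primeDiv k T j c)}
    (hD : ∀ V ∈ primeDiv k T j c, IsOrd V (∏ y ∈ Cs.erase 0, y) (m * D.1 V)) :
    (prin (funField k T j c).toSubfield (primeDiv k T j c)).mkQ D ∉
      AddSubgroup.closure (cuspClasses k T j c) := by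
  intro h
  have := IsSepClosure.sep_closed E (K := Ω)
  obtain ⟨θ, hθ⟩ := IsSepClosed.exists_aeval_eq_zero (K := Ω) p (degree_ne_of_natDegree_ne (n := 0)
    H.irr.natDegree_pos.ne') (PerfectField.separable_of_irreducible H.irr)
  obtain ⟨D', e, hD'⟩ : ∃ D' : WDiv (primeDiv k T j c),
      (prin (funField k T j c).toSubfield (primeDiv k T j c)).mkQ D' =
        (prin (funField k T j c).toSubfield (primeDiv k T j c)).mkQ D ∧
      ∀ V, V ∉ cusps k T j c → D'.1 V = 0 := by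
    generalize (prin (funField k T j c).toSubfield (primeDiv k T j c)).mkQ D = x at h
    induction h using AddSubgroup.closure_induction with
    | mem x h =>
      obtain ⟨V, hV, D, e, rfl⟩ := h
      exact ⟨D, rfl, fun V' hV' => e ▸ Finsupp.single_eq_of_ne fun e => hV' (e ▸ hV)⟩
    | zero => exact ⟨0, rfl, fun _ _ => rfl⟩
    | add x y _ _ h h' =>
      obtain ⟨D, rfl, h⟩ := h
      obtain ⟨D', rfl, h'⟩ := h'
      exact ⟨D + D', rfl, fun V hV => by simp [h V hV, h' V hV]⟩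
    | neg x _ h =>
      obtain ⟨D, rfl, h⟩ := h
      exact ⟨-D, rfl, fun V hV => by simp [h V hV]⟩
  obtain ⟨u, hu, h0, hord⟩ := H.of_prin ((Submodule.Quotient.eq _).1 e.symm)
  have hNr := (H.chart (Fin.last s)).1
  have hε : (∏ y ∈ Cs.erase 0, y) / u ^ m ∈ funField k T j c := div_mem (h_mem hC) (pow_mem hu m)
  have hun : ∀ (P : Ideal (MP_7c5a52_nt.chart k T j c (Fin.last s))) (V : Subring Ω), P.IsPrime →
      P.height = 1 → IsLoc _ P V → Un V ((∏ y ∈ Cs.erase 0, y) / u ^ m) := fun P V hP h1 hV => by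
    have hV1 : V ∈ primeDiv k T j c := ⟨_, P, hP, h1, hV⟩
    have := H.dvr hV1
    have h2 := hord V hV1
    have h3 : (D - D').1 V = D.1 V := by
      simp [hD' V fun h => h.2 (hV.le hP)]
    rw [h3] at h2
    have := (hD V hV1).mul (ord_pow h2 m).inv
    rwa [add_neg_cancel, isOrd_zero_iff, ← div_eq_mul_inv] at this
  set O := locO (Fsep F Ω) (vv k T j c) (PP s k θ) with hO
  have U1 : Un O ((∏ y ∈ Cs.erase 0, y) / u ^ m) :=
    ⟨H.le_locO hθ (hNr.hartogs hε fun P V a b d => (hun P V a b d).1),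
      H.le_locO hθ (hNr.hartogs (inv_mem hε) fun P V a b d => (hun P V a b d).2.1),
      div_ne_zero h_ne (pow_ne_zero _ h0)⟩
  have U2 : Un O (∏ y ∈ Cs.erase 0, y / c) := by
    refine Finset.prod_induction _ _ (fun _ _ => Un.mul) ⟨one_mem _, by simp, one_ne_zero⟩
      fun y hy => ?_
    obtain ⟨hy0, hy⟩ := Finset.mem_erase.1 hy
    obtain ⟨a, rfl⟩ := (hC y).1 hy
    rw [orb_apply, ← psi_apply]
    have : ¬ p ∣ a := (lev_iff H.lev a).not.1 hy0
    exact (H.val_psi hθ a).un ((H.sol.ker a).not.2 this) ((root_iff H.irr hθ a).not.2 this)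
  obtain ⟨M, hM⟩ := hN
  have hw0 : wt k (Fin.last s) = wt k (0 : Fin (s + 1)) * M * m := by
    rw [wt_eq, Fin.val_last, hM]; ring
  have hce : (Cs.erase 0).card = wt k (Fin.last s) := by
    rw [Finset.card_erase_of_mem ((hC 0).2 ⟨0, map_zero _⟩), hcard, H.deg]; rfl
  have U3 : Un O ((c ^ (wt k (0 : Fin (s + 1)) * M) / u) ^ m) := by
    have := U1.mul U2.inv
    rw [Finset.prod_div_distrib, Finset.prod_const, hce, hw0] at this
    convert this using 1
    have := h_ne (Cs := Cs)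
    rw [div_pow, ← pow_mul]
    field_simp
  have hw : c ^ (wt k (0 : Fin (s + 1)) * M) / u ∈
      IntermediateField.adjoin (Fsep F Ω) (Set.range (vv k T j c)) := by
    refine div_mem (pow_mul c _ M ▸ pow_mem ?_ _) (H.le hu)
    have := eq_div_of_mul_eq (H.sol.dd_ne (F := F) H.irr H.deg) (H.sol.cramer H.deg 0)
    rw [resc, g_zero, one_mul] at this
    exact this ▸ div_mem (aeval_mem_K _ _) (aeval_mem_K _ _)
  have key : ∀ w ∈ IntermediateField.adjoin (Fsep F Ω) (Set.range (vv k T j c)),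
      w ^ m ∈ O → w ∈ O := fun w hw h =>
    locO_int H.indep hw (IsIntegral.of_pow (n := m) (by omega)
      (isIntegral_algebraMap (x := (⟨_, h⟩ : O))))
  have hUn : Un O (c ^ (wt k (0 : Fin (s + 1)) * M) / u) :=
    ⟨key _ hw U3.1, key _ (inv_mem hw) (by rw [inv_pow]; exact U3.2.1),
      div_ne_zero (pow_ne_zero _ H.ne) h0⟩
  have hpos : 0 < wt k (0 : Fin (s + 1)) * M := Nat.pos_of_ne_zero fun e =>
    wt_ne (k := k) (Fin.last s) (by rw [hw0, e, zero_mul])
  obtain ⟨a, ha0, ha⟩ := exists_pow_ne H.irr hθ hpos (by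
    rw [H.deg]
    exact (hw0 ▸ (Nat.lt_mul_iff_one_lt_right hpos).2 hm : _ < wt k (Fin.last s)))
  have hna : ¬ p ∣ a := (root_iff H.irr hθ a).not.1 ha0
  have H' : Hyp T j p (aeval (phiT k Ω T j) a c) := ⟨H.irr, H.deg, lev_mul H.lev H.irr hna⟩
  obtain ⟨σ, hK, hv⟩ := H.sigma H' AlgEquiv.refl
  obtain ⟨b, hb, e⟩ := H.scal H' σ hv
  have hσ := gal_of H.lev H.irr (fun h => (H.irr.prime.dvd_or_dvd h).elim
    (not_dvd_C H.irr hb) hna) (e.trans (by rw [map_mul, Module.End.mul_apply]))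
  have hψ : psi k T j c a ≠ 0 := (H.sol.ker a).not.2 hna
  refine ha (locO_eigen H.indep (σ : Ω →+* Ω) hK (fun i => ?_) hUn ((H.val_psi hθ a).pow _) ?_)
  · have := (H.val_psi hθ (X ^ (i.1 + 1) * a)).mul ((H.val_psi hθ a).inv hψ ha0)
    rw [map_mul (aeval θ), mul_inv_cancel_right₀ ha0] at this
    convert this using 1
    · rw [RingHom.coe_coe, hv, vv, co, psi_apply, psi_apply, psi_apply, map_mul,
        Module.End.mul_apply, ← div_eq_mul_inv, div_div_div_cancel_right₀ H.ne]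
    · rfl
  · have hb1 : algebraMap k Ω b ^ wt k (0 : Fin (s + 1)) = 1 := by
      rw [← map_pow, wt, Fin.val_zero, zero_add, pow_one, FiniteField.pow_card_sub_one_eq_one b hb,
        map_one]
    rw [RingHom.coe_coe, map_div₀, mem_funField.1 hu σ hσ fun y hy => hK ⟨y, hy⟩, map_pow, e,
      aeval_C, Module.algebraMap_end_apply, Algebra.smul_def, mul_pow, pow_mul (algebraMap k Ω b),
      hb1, one_pow, one_mul, psi_apply, div_pow, ← mul_div_assoc,
      div_mul_cancel₀ _ (pow_ne_zero _ H.ne)]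

end

variable {j : Fin (s + 2) → E} [GenJ F j]

theorem Hyp.dvd_ord (H : Hyp T j p c) (hcard : Cs.card = Fintype.card k ^ p.natDegree)
    (hC : ∀ y, y ∈ Cs ↔ ∃ a, orb k T j c a = y) (hr : m ∣ s + 3)
    (hN : m ∣ ∑ i ∈ Finset.range (s + 3), Fintype.card k ^ i)
    {V : Subring Ω} (hV : V ∈ primeDiv k T j c) :
    ∃ n, IsOrd V (∏ y ∈ Cs.erase 0, y) (m * n) := by
  have := H.dvr hV
  have := IsSepClosure.sep_closed E (K := Ω)
  set q := Fintype.card k with hq
  set N := ∑ i ∈ Finset.range (s + 3), q ^ i with hNd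
  obtain ⟨i, P, hP, h1, hV'⟩ := id hV
  obtain ⟨W, hW, hc⟩ := exists_center P hP
  have hK : ∀ y ∈ Fsep F Ω, y ∈ W := fun y hy => hW ⟨y, base_le i (K_mem i hy)⟩
  have hF : ∀ a : F, algebraMap F Ω a ∈ W := fun a => hK _ (IntermediateField.algebraMap_mem _ a)
  have := NeZero.mk (wt_cast (k := k) (Ω := Ω) i)
  obtain ⟨x, hx⟩ := IsSepClosed.exists_pow_nat_eq (g Ω j i) (wt k i)
  have hx0 : x ≠ 0 := fun e => g_ne F (j := j) i (by rw [← hx, e, zero_pow (wt_ne i)])
  have hvx : W.valuation x ≠ 0 := (_root_.map_ne_zero _).2 hx0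
  let G := resc k j x⁻¹
  have hGY : ∀ l, G l ^ wt k i = YY k Ω j i l := fun l => by
    rw [YY, ← hx, div_eq_mul_inv, ← inv_pow, ← inv_pow, pow_right_comm, ← mul_pow]
    rfl
  have hG1 : ∀ l, W.valuation (G l) ≤ 1 := fun l => by
    have : W.valuation (YY k Ω j i l) ≤ 1 :=
      (W.valuation_le_one_iff _).2 (hW ⟨_, base_le i (YY_mem i l)⟩)
    rwa [← hGY, map_pow, pow_le_one_iff (wt_ne i)] at this
  have hG2 : ∀ l l', l ≠ l' → W.valuation (G l) = 1 ∨ W.valuation (G l') = 1 := fun l l' hl => by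
    by_contra! hn
    have key : ∀ l, W.valuation (G l) ≠ 1 → ∃ a, i.succAbove a = l ∧
        (⟨_, base_le i (YY_mem i l)⟩ : MP_7c5a52_nt.chart k T j c i) ∈ P := fun l h => by
      have h3 : W.valuation (YY k Ω j i l) < 1 := by
        rw [← hGY, map_pow]
        exact pow_lt_one₀ zero_le (lt_of_le_of_ne (hG1 l) h) (wt_ne i)
      obtain ⟨a, ha⟩ := Fin.exists_succAbove_eq (x := l) (y := i) fun e => by
        rw [e, YY_self F, map_one] at h3
        exact lt_irrefl _ h3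
      exact ⟨a, ha, (hc _).1 h3⟩
    obtain ⟨a, rfl, ha⟩ := key l hn.1
    obtain ⟨b, rfl, hb⟩ := key l' hn.2
    exact (H.chart i).2 P hP h1 a b _ _ (fun e => hl (e ▸ rfl)) rfl rfl ha hb
  have hgG : ∀ l, W.valuation (g Ω j l) = W.valuation (G l) * W.valuation x ^ wt k l := fun l => by
    simp [G, resc, hvx]
  obtain ⟨μ, hμ, hμ0, hμv⟩ : ∃ μ ∈ funField k T j c, μ ≠ 0 ∧
      W.valuation μ = W.valuation x ^ wt k (0 : Fin (s + 3)) := by
    by_cases h0 : W.valuation (G 0) = 1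
    · exact ⟨_, g_fun 0, g_ne F 0, by rw [hgG, h0, one_mul]⟩
    have e1 := (hG2 0 1 (by simp)).resolve_left h0
    have e2 := (hG2 0 2 (Fin.ne_of_val_ne (by rw [Fin.val_two]; simp))).resolve_left h0
    refine ⟨_, div_mem (g_fun 2) (pow_mem (g_fun 1) q),
      div_ne_zero (g_ne F 2) (pow_ne_zero _ (g_ne F 1)), ?_⟩
    have w0 := wt_succ (k := k) (0 : Fin (s + 3))
    have w1 := wt_succ (k := k) (1 : Fin (s + 3))
    have w2 := wt_succ (k := k) (2 : Fin (s + 3))
    simp only [Fin.val_zero, Fin.val_one, Fin.val_two, ← hq] at w0 w1 w2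
    have w3 : wt k (2 : Fin (s + 3)) = wt k (0 : Fin (s + 3)) + wt k (1 : Fin (s + 3)) * q := by
      have : (wt k (1 : Fin (s + 3)) + 1) * q = wt k (2 : Fin (s + 3)) + 1 := by
        rw [w1, w2]; ring
      rw [zero_add, pow_one] at w0
      rw [add_mul, one_mul] at this
      omega
    rw [map_div₀, map_pow, hgG, hgG, e1, e2, one_mul, one_mul, ← pow_mul, w3, pow_add,
      mul_div_cancel_right₀ _ (pow_ne_zero _ hvx)]
  let φ' : Module.End k Ω := LinearMap.mulLeft k x * phiT k Ω T j * LinearMap.mulLeft k x⁻¹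
  have hφ : ∀ (a : k[X]) z, aeval φ' a (x * z) = x * aeval (phiT k Ω T j) a z := fun a z =>
    (aeval_comm (LinearMap.mulLeft k x) (fun z => by simp [φ', hx0]) a z).symm
  have hinj : Function.Injective (x * ·) := mul_right_injective₀ hx0
  have hpt : W.valuation (aeval (TT Ω T) p) = 1 := by
    have h0 := aeval_TT (Ω := Ω) (T := T) H.irr.ne_zero
    rw [TT, aeval_algebraMap_apply] at h0 ⊢
    refine le_antisymm ((W.valuation_le_one_iff _).2 (hF _)) ?_
    have := (W.valuation_le_one_iff _).2 (hF (aeval T p)⁻¹)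
    rwa [map_inv₀, map_inv₀, inv_le_one₀ (zero_lt_iff.2 ((_root_.map_ne_zero _).2 h0))] at this
  have hd := val_dich W (fun a => IsScalarTower.algebraMap_apply k F Ω a ▸ hF _) (hF T) H.irr hpt
    (fun l => (W.valuation_le_one_iff _).1 (hG1 l)) (resc_ne F (inv_ne_zero hx0) _)
    (hG2 _ _ (Fin.castSucc_lt_last _).ne') (φ := φ') (fun z => by
      simp only [φ', Module.End.mul_apply, LinearMap.mulLeft_apply, phiT_apply, mul_add,
        Finset.mul_sum, G, resc, mul_pow, ← wt_succ, pow_succ x⁻¹]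
      congr 1
      · field_simp
      · exact Finset.sum_congr rfl fun l _ => by field_simp) (c := x * c)
    (fun a => by rw [hφ, mul_eq_zero, or_iff_right hx0, lev_iff H.lev]) (Cs := Cs.image (x * ·))
    (by rw [Finset.card_image_of_injective _ hinj, hcard]) fun y => by
      simp only [Finset.mem_image, hC, hφ, orb_apply]
      exact ⟨fun ⟨_, ⟨a, e⟩, e'⟩ => ⟨a, e ▸ e'⟩, fun ⟨a, e⟩ => ⟨_, ⟨a, rfl⟩, e⟩⟩
  have hwl : wt k (Fin.last (s + 2)) = wt k (0 : Fin (s + 3)) * N := wt_eq _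
  have hz : ∏ y ∈ (Cs.image (x * ·)).erase 0, W.valuation y =
      W.valuation (μ ^ N * ∏ y ∈ Cs.erase 0, y) := by
    have := Finset.image_erase hinj Cs 0
    simp only [mul_zero] at this
    rw [← this, Finset.prod_image hinj.injOn, map_mul, map_pow, hμv, ← pow_mul, ← hwl, map_prod]
    simp only [map_mul, Finset.prod_mul_distrib, Finset.prod_const]
    rw [Finset.card_erase_of_mem ((hC 0).2 ⟨0, map_zero _⟩), hcard, H.deg]
    rfl
  have hy : W.valuation (G (Fin.last _)) = W.valuation (g Ω j (Fin.last _) / μ ^ N) := by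
    rw [map_div₀, map_pow, hμv, ← pow_mul, ← hwl, hgG, mul_div_cancel_right₀ _ (pow_ne_zero _ hvx)]
  have un := fun f => (H.chart i).1.un_of_val hP h1 hV' hW hc (f := f)
  have hzm : μ ^ N * ∏ y ∈ Cs.erase 0, y ∈ funField k T j c := mul_mem (pow_mem hμ N) (h_mem hC)
  have hym : g Ω j (Fin.last _) / μ ^ N ∈ funField k T j c := div_mem (g_fun _) (pow_mem hμ N)
  obtain ⟨n1, o1⟩ := H.ord hV hμ hμ0
  obtain ⟨n2, o2⟩ := H.ord hV (h_mem hC) h_ne
  obtain ⟨n3, o3⟩ := H.ord hV hym (div_ne_zero (g_ne F _) (pow_ne_zero _ hμ0))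
  have o4 := (ord_pow o1 N).mul o2
  have hN' : (m : ℤ) ∣ N * n1 := (Int.natCast_dvd_natCast.2 hN).mul_right _
  suffices h : (m : ℤ) ∣ N * n1 + n2 by
    obtain ⟨n, hn⟩ := (dvd_add_right hN').1 h
    exact ⟨n, hn ▸ o2⟩
  rw [hz, hy, ← map_pow, ← map_pow, ← map_mul, H.deg] at hd
  rcases hd with hd | hd
  · rw [o4.unique (isOrd_zero_iff.2 (un _ hzm hd))]
    exact dvd_zero _
  have e := ((ord_pow o3 _).mul (ord_pow o4 _)).unique
    (isOrd_zero_iff.2 (un _ (mul_mem (pow_mem hym _) (pow_mem hzm _)) hd))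
  have hq3 : q ^ (s + 3) = wt k (0 : Fin (s + 3)) * N + 1 := by
    rw [← hwl, wt_succ]; rfl
  have hD : m ∣ ∑ i ∈ Finset.range (s + 2 + 1), (q ^ (s + 1 + 2)) ^ i := by
    rw [← ZMod.natCast_eq_zero_iff] at hN hr ⊢
    rw [show s + 1 + 2 = s + 3 from rfl, hq3]
    simpa [hN] using hr
  have hco : Nat.Coprime m q := by
    obtain ⟨M, hM⟩ := hN
    refine (Nat.coprime_pow_right_iff (Nat.succ_pos (s + 2)) _ _).1 ?_
    rw [show (s + 2).succ = s + 3 from rfl, hq3, hM, mul_left_comm]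
    simp
  refine (Nat.isCoprime_iff_coprime.2 ((hco.pow_right (s + 1 + 1)).pow_right
    (s + 2 + 1))).dvd_of_dvd_mul_left ?_
  rw [eq_neg_of_add_eq_zero_right e]
  exact ((Int.natCast_dvd_natCast.2 hD).mul_right _).neg_right

omit [DecidableEq Ω] in
theorem main (hm : ¬ Nat.Coprime (s + 3) (∑ i ∈ Finset.range (s + 3), Fintype.card k ^ i))
    (hp : Irreducible p) (hd : p.natDegree = s + 3) (hc : IsLevel k T j (Ideal.span {p}) c) :
    ∃ x : Cl k T j c, IsOfFinAddOrder x ∧ IsRational k T j x ∧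
      x ∉ AddSubgroup.closure (cuspClasses k T j c) ∧ x ∉ cuspGroup k T j c := by
  classical
  have H : Hyp T j p c := ⟨hp, hd, hc⟩
  obtain ⟨Cs, hcard, hC⟩ := exists_finset hp (orb k T j c) (lev_iff hc)
  set m := Nat.gcd (s + 3) (∑ i ∈ Finset.range (s + 3), Fintype.card k ^ i)
  have hm0 : m ≠ 0 := Nat.gcd_ne_zero_left (Nat.succ_ne_zero _)
  obtain ⟨D, hD⟩ := H.exists_div (h_mem hC) h_ne (Int.natCast_ne_zero.2 hm0)
    fun V hV => H.dvd_ord hcard hC (Nat.gcd_dvd_left _ _) (Nat.gcd_dvd_right _ _) hV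
  have hm1 : 1 < m := by have : m ≠ 1 := hm; omega
  have hn := H.not_cusp hcard hC hm1 (Nat.gcd_dvd_right _ _) hD
  refine ⟨_, isOfFinAddOrder_iff_zsmul_eq_zero.2 ⟨m, Int.natCast_ne_zero.2 hm0, ?_⟩,
    H.rational (fun _ => h_fix hC) hm0 hD, hn, fun h => hn ((AddSubgroup.closure_le _).2 ?_ h)⟩
  · rw [← map_zsmul]
    exact (Submodule.Quotient.mk_eq_zero _).2 (Submodule.subset_span ⟨_, h_mem hC, h_ne, hD⟩)
  · rintro _ ⟨x, hx, y, hy, rfl⟩
    exact sub_mem (AddSubgroup.subset_closure hx) (AddSubgroup.subset_closure hy)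

theorem exists_irr (k : Type) [Field k] [Fintype k] (n : ℕ) :
    ∃ p : k[X], Irreducible p ∧ p.natDegree = n + 1 := by
  obtain ⟨l, hl⟩ := CharP.exists k
  have := Fact.mk (CharP.char_is_prime k l)
  obtain ⟨α, hα⟩ := Field.exists_primitive_element k (FiniteField.Extension k l (n + 1))
  have hi : IsIntegral k α := Algebra.IsIntegral.isIntegral α
  refine ⟨minpoly k α, minpoly.irreducible hi, ?_⟩
  rw [← IntermediateField.adjoin.finrank hi, hα, IntermediateField.finrank_top',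
    FiniteField.finrank_extension]

theorem six (q : ℕ) : ¬ Nat.Coprime 6 (∑ i ∈ Finset.range 6, q ^ i) ∨ 6 ∣ q := by
  have key : ∀ l, l ∣ 6 → l ≠ 1 → ((∑ i ∈ Finset.range 6, q ^ i : ℕ) : ZMod l) = 0 →
      ¬ Nat.Coprime 6 (∑ i ∈ Finset.range 6, q ^ i) := fun l h6 h1 h hc =>
    h1 (Nat.eq_one_of_dvd_coprimes hc h6 ((ZMod.natCast_eq_zero_iff _ _).1 h))
  by_cases h2 : 2 ∣ q
  · by_cases h3 : 3 ∣ q
    · exact .inr (by omega)
    · refine .inl (key 3 (by decide) (by decide) ?_)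
      rw [← ZMod.natCast_eq_zero_iff] at h3
      push_cast
      revert h3
      generalize (q : ZMod 3) = x
      revert x
      decide
  · refine .inl (key 2 (by decide) (by decide) ?_)
    rw [← ZMod.natCast_eq_zero_iff] at h2
    push_cast
    revert h2
    generalize (q : ZMod 2) = x
    revert x
    decide

theorem six_card (k : Type) [Field k] [Fintype k] :
    ¬ Nat.Coprime 6 (∑ i ∈ Finset.range 6, Fintype.card k ^ i) := by
  refine (six _).resolve_right fun h => ?_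
  obtain ⟨l, hl⟩ := CharP.exists k
  obtain ⟨n, hp, e⟩ := FiniteField.card k l
  rw [e] at h
  have h2 := (Nat.prime_dvd_prime_iff_eq Nat.prime_two hp).1
    (Nat.prime_two.dvd_of_dvd_pow (dvd_trans (by decide) h))
  have h3 := (Nat.prime_dvd_prime_iff_eq Nat.prime_three hp).1
    (Nat.prime_three.dvd_of_dvd_pow (dvd_trans (by decide) h))
  omega

end Pool.Agent.P.MP_7c5a52_nt.G
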