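import Pool.Agent.P.MP_7c5a52_nt.G.Chart

/-! The Moore system satisfied by the coefficients of a module with a point of prime level. -/

open Polynomial

namespace Pool.Agent.P.MP_7c5a52_nt.G

variable {k Ω : Type} [Field k] [Fintype k] [Field Ω] [Algebra k Ω]

theorem q_ne : Fintype.card k ≠ 0 := Fintype.card_ne_zero

theorem frob_pow (n : ℕ) (z : Ω) :
    ((FiniteField.frobeniusAlgHom k Ω).toLinearMap ^ n) z = z ^ Fintype.card k ^ n := by
  induction n with
  | zero => simp
  | succ n ih => rw [pow_succ', Module.End.mul_apply, ih, pow_succ, pow_mul]; rfl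

theorem inj_q {x y : Ω} (h : x ^ Fintype.card k = y ^ Fintype.card k) : x = y :=
  (FiniteField.frobeniusAlgHom k Ω).toRingHom.injective h

variable (k) in
theorem q_cast : (Fintype.card k : Ω) = 0 := by
  rw [← map_natCast (algebraMap k Ω), FiniteField.cast_card_eq_zero, map_zero]

theorem mem_of_pow_q {b : Ω} (h : b ^ Fintype.card k = b) : ∃ a : k, algebraMap k Ω a = b := by
  by_contra! hn
  have hq : 1 < Fintype.card k := Fintype.one_lt_card
  refine FiniteField.X_pow_card_sub_X_ne_zero Ω hq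
    (eq_zero_of_natDegree_lt_card_of_eval_eq_zero _ (ι := Option k)
      (f := fun o => o.elim b (algebraMap k Ω)) ?_ ?_ ?_)
  · rintro (_ | x) (_ | y) e
    · rfl
    · exact absurd e.symm (hn y)
    · exact absurd e (hn x)
    · exact congrArg some ((algebraMap k Ω).injective e)
  · rintro (_ | x)
    · simp [h]
    · simp [← map_pow, FiniteField.pow_card]
  · rw [FiniteField.X_pow_card_sub_X_natDegree_eq Ω hq, Fintype.card_option]
    exact Nat.lt_succ_self _

section
variable {p : k[X]} (hp : Irreducible p)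
include hp

theorem card_root [Fintype (AdjoinRoot p)] :
    Fintype.card (AdjoinRoot p) = Fintype.card k ^ p.natDegree := by
  rw [Module.card_eq_pow_finrank (K := k), (AdjoinRoot.powerBasis hp.ne_zero).finrank,
    AdjoinRoot.powerBasis_dim]

theorem fin_root : Finite (AdjoinRoot p) :=
  have := (AdjoinRoot.powerBasis hp.ne_zero).finite
  Module.finite_of_finite k

omit [Fintype k] in
theorem root_iff {θ : Ω} (h : aeval θ p = 0) (a : k[X]) : aeval θ a = 0 ↔ p ∣ a := by
  refine ⟨fun e => ?_, ?_⟩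
  · rw [← (minpoly.eq_of_irreducible hp h ▸ associated_mul_unit_left p _
      (isUnit_C.2 (inv_ne_zero (leadingCoeff_ne_zero.2 hp.ne_zero)).isUnit) :
        Associated (minpoly k θ) p).dvd_iff_dvd_left]
    exact minpoly.dvd k _ e
  · rintro ⟨b, rfl⟩
    rw [map_mul, h, zero_mul]

theorem root_pow {θ : Ω} (h : aeval θ p = 0) (a : k[X]) :
    aeval θ a ^ Fintype.card k ^ p.natDegree = aeval θ a := by
  have := Fact.mk hp
  have := fin_root hp
  have := Fintype.ofFinite (AdjoinRoot p)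
  have e := congrArg (AdjoinRoot.liftAlgHom p (Algebra.ofId k Ω) θ h)
    (FiniteField.pow_card (AdjoinRoot.mk p a))
  rwa [map_pow, card_root hp] at e

theorem exists_pow_ne {θ : Ω} (h : aeval θ p = 0) {m : ℕ} (h0 : 0 < m)
    (hm : m < Fintype.card k ^ p.natDegree - 1) :
    ∃ a : k[X], aeval θ a ≠ 0 ∧ aeval θ a ^ m ≠ 1 := by
  classical
  have := Fact.mk hp
  have := fin_root hp
  have := Fintype.ofFinite (AdjoinRoot p)
  obtain ⟨γ, hγ⟩ := IsCyclic.exists_ofOrder_eq_natCard (α := (AdjoinRoot p)ˣ)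
  rw [Nat.card_eq_fintype_card, Fintype.card_units, card_root hp] at hγ
  obtain ⟨a, ha⟩ := AdjoinRoot.mk_surjective (g := p) γ
  let ψ := AdjoinRoot.liftAlgHom p (Algebra.ofId k Ω) θ h
  have e : aeval θ a = ψ γ := by rw [← ha]; rfl
  refine ⟨a, by rw [e]; exact (map_ne_zero ψ).2 γ.ne_zero, fun h1 => ?_⟩
  refine pow_ne_one_of_lt_orderOf h0.ne' (hγ ▸ hm) (Units.ext (ψ.toRingHom.injective ?_))
  rw [e, ← map_pow] at h1
  simpa using h1

/-- The image of a linear map with kernel `(p)`, as a finite set. -/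
theorem exists_finset (ψ : k[X] →ₗ[k] Ω) (h : ∀ a, ψ a = 0 ↔ p ∣ a) :
    ∃ Cs : Finset Ω, Cs.card = Fintype.card k ^ p.natDegree ∧ ∀ y, y ∈ Cs ↔ ∃ a, ψ a = y := by
  classical
  have := fin_root hp
  have := Fintype.ofFinite (AdjoinRoot p)
  choose r hr using AdjoinRoot.mk_surjective (g := p)
  refine ⟨Finset.univ.image fun z => ψ (r z), ?_, fun y => ?_⟩
  · rw [Finset.card_image_of_injective _ fun z z' e => ?_, Finset.card_univ, card_root hp]
    rw [← hr z, ← hr z', AdjoinRoot.mk_eq_mk]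
    exact (h _).1 (by rw [map_sub, e, sub_self])
  · simp only [Finset.mem_image, Finset.mem_univ, true_and]
    refine ⟨fun ⟨z, hz⟩ => ⟨_, hz⟩, fun ⟨a, ha⟩ => ⟨AdjoinRoot.mk p a, ?_⟩⟩
    rw [← ha, ← sub_eq_zero, ← map_sub, h, ← AdjoinRoot.mk_eq_mk, hr]

end

variable {s : ℕ} {p : k[X]}

omit [Fintype k] in
theorem lin_sum (hd : p.natDegree = s + 1) (χ : k[X] →ₗ[k] Ω) (h : ∀ a, p ∣ a → χ a = 0)
    (a : k[X]) : χ a = ∑ i : Fin (s + 1), algebraMap k Ω ((a % p).coeff i) * χ (X ^ i.1) := by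
  have hr : (a % p).natDegree < s + 1 := hd ▸ natDegree_mod_lt a (by omega)
  conv_lhs => rw [← EuclideanDomain.mod_add_div a p, map_add, h _ (dvd_mul_right _ _), add_zero,
    (a % p).as_sum_range_C_mul_X_pow' hr, Finset.sum_range, map_sum]
  simp only [C_mul', map_smul]
  simp only [Algebra.smul_def]

variable (F : Type) [Field F] [Algebra k F]

variable (s) in
/-- Homogeneous coordinates. -/
noncomputable def hX : Fin (s + 1) → MvPolynomial (Fin s) F := Fin.cons 1 MvPolynomial.X

variable (s p) in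
/-- The linear form attached to `a`. -/
noncomputable def lin (a : k[X]) : MvPolynomial (Fin s) F :=
  ∑ i : Fin (s + 1), MvPolynomial.C (algebraMap k F ((a % p).coeff i)) * hX s F i

variable (k s) in
/-- The Moore matrix. -/
noncomputable def mo : Matrix (Fin (s + 1)) (Fin (s + 1)) (MvPolynomial (Fin s) F) :=
  Matrix.of fun i l => hX s F i ^ Fintype.card k ^ (l.1 + 1)

variable (k s) in
/-- The Moore determinant. -/
noncomputable def dd : MvPolynomial (Fin s) F := (mo k s F).det

variable {F}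

variable (s p) in
/-- The Cramer numerators. -/
noncomputable def nn (T : F) : Fin (s + 1) → MvPolynomial (Fin s) F :=
  (mo k s F).adjugate.mulVec fun i => lin s p F (X * X ^ i.1) - MvPolynomial.C T * hX s F i

variable (p) in
/-- A solution of the Moore system. -/
structure Sol (t : Ω) (ψ : k[X] →ₗ[k] Ω) (G : Fin (s + 1) → Ω) : Prop where
  one : ψ 1 = 1
  ker : ∀ a, ψ a = 0 ↔ p ∣ a
  eq : ∀ a, ∑ l, G l * ψ a ^ Fintype.card k ^ (l.1 + 1) = ψ (X * a) - t * ψ a

variable (s) in
/-- Affine coordinates. -/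
noncomputable def co (ψ : k[X] →ₗ[k] Ω) : Fin s → Ω := fun i => ψ (X ^ (i.1 + 1))

variable [Algebra F Ω] [IsScalarTower k F Ω] {T : F} {t : Ω} {ψ : k[X] →ₗ[k] Ω}
  {G : Fin (s + 1) → Ω}

omit [IsScalarTower k F Ω] [Algebra k F] in
theorem Sol.aeval_hX (h : Sol p t ψ G) (i : Fin (s + 1)) :
    MvPolynomial.aeval (co s ψ) (hX s F i) = ψ (X ^ i.1) := by
  refine Fin.cases ?_ (fun i => ?_) i
  · simp [hX, h.one]
  · simp [hX, co]

theorem Sol.aeval_lin (h : Sol p t ψ G) (hd : p.natDegree = s + 1) (a : k[X]) :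
    MvPolynomial.aeval (co s ψ) (lin s p F a) = ψ a := by
  rw [lin_sum hd ψ (fun a => (h.ker a).2) a, lin, map_sum]
  simp only [map_mul, MvPolynomial.aeval_C, h.aeval_hX, ← IsScalarTower.algebraMap_apply]

omit [IsScalarTower k F Ω] [Algebra k F] in
theorem Sol.map_mo (h : Sol p t ψ G) :
    (MvPolynomial.aeval (R := F) (co s ψ)).toRingHom.mapMatrix (mo k s F) =
      Matrix.of fun i l : Fin (s + 1) => ψ (X ^ i.1) ^ Fintype.card k ^ (l.1 + 1) := by
  ext i l
  simp [mo, h.aeval_hX]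

omit [IsScalarTower k F Ω] [Algebra k F] in
theorem Sol.dd_ne (h : Sol p t ψ G) (hp : Irreducible p) (hd : p.natDegree = s + 1) :
    MvPolynomial.aeval (co s ψ) (dd k s F) ≠ 0 := by
  classical
  intro e
  have e1 := ((MvPolynomial.aeval (R := F) (co s ψ)).toRingHom.map_det (mo k s F)).symm.trans e
  rw [h.map_mo] at e1
  obtain ⟨u, hu, e2⟩ := Matrix.exists_mulVec_eq_zero_iff.2 e1
  set q := Fintype.card k with hq
  have hq1 : 1 < q := Fintype.one_lt_card
  let χ : k[X] →ₗ[k] Ω := (∑ l : Fin (s + 1), LinearMap.mulLeft k (u l) *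
    (FiniteField.frobeniusAlgHom k Ω).toLinearMap ^ (l.1 + 1)) ∘ₗ ψ
  have hχ : ∀ a, χ a = ∑ l, u l * ψ a ^ q ^ (l.1 + 1) := fun a => by
    simp [χ, frob_pow, hq]
  have h0 : ∀ a, χ a = 0 := fun a => by
    rw [lin_sum hd χ (fun a ha => by simp [χ, (h.ker a).2 ha]) a]
    refine Finset.sum_eq_zero fun i _ => mul_eq_zero_of_right _ ?_
    rw [hχ, ← (show _ = (0 : Ω) from congrFun e2 i)]
    simp [Matrix.mulVec, dotProduct, mul_comm]
  obtain ⟨Cs, hC, hC'⟩ := exists_finset hp ψ h.ker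
  have hQ : ∑ l : Fin (s + 1), C (u l) * X ^ q ^ l.1 = 0 := by
    refine eq_zero_of_natDegree_lt_card_of_eval_eq_zero' _ (Cs.image (· ^ q)) (fun z hz => ?_) ?_
    · obtain ⟨y, hy, rfl⟩ := Finset.mem_image.1 hz
      obtain ⟨a, rfl⟩ := (hC' y).1 hy
      rw [← h0 a, hχ, eval_finset_sum]
      simp only [eval_mul, eval_C, eval_pow, eval_X, ← pow_mul, pow_succ']
    · rw [Finset.card_image_of_injective _ fun _ _ => inj_q (k := k), hC, hd]
      refine lt_of_le_of_lt (natDegree_sum_le_of_forall_le (n := q ^ s) _ _ fun l _ => ?_)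
        (Nat.pow_lt_pow_right hq1 (Nat.lt_succ_self s))
      exact (natDegree_C_mul_X_pow_le _ _).trans (Nat.pow_le_pow_right hq1.le (Nat.lt_succ_iff.1 l.2))
  refine hu (funext fun l => ?_)
  have c1 := congrArg (coeff · (q ^ l.1)) hQ
  simp only [finset_sum_coeff, coeff_C_mul_X_pow, coeff_zero] at c1
  rw [Finset.sum_eq_single l (fun b _ hb => if_neg fun e => hb
    (Fin.ext (Nat.pow_right_injective hq1 e)).symm) (by simp), if_pos rfl] at c1
  exact c1

theorem Sol.cramer (h : Sol p (algebraMap F Ω T) ψ G) (hd : p.natDegree = s + 1)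
    (l : Fin (s + 1)) : G l * MvPolynomial.aeval (co s ψ) (dd k s F) =
      MvPolynomial.aeval (co s ψ) (nn s p T l) := by
  let f := (MvPolynomial.aeval (R := F) (co s ψ)).toRingHom
  have e1 : MvPolynomial.aeval (co s ψ) (dd k s F) = _ := f.map_det (mo k s F)
  have e2 : MvPolynomial.aeval (co s ψ) (nn s p T l) = _ := f.map_mulVec (mo k s F).adjugate _ l
  have e3 : (mo k s F).adjugate.map f = _ := f.map_adjugate (mo k s F)
  have e4 : (f ∘ fun i : Fin (s + 1) => lin s p F (X * X ^ i.1) - MvPolynomial.C T * hX s F i) =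
      (f.mapMatrix (mo k s F)).mulVec G := by
    rw [h.map_mo]
    funext i
    have := h.eq (X ^ i.1)
    simp only [mul_comm (G _)] at this
    simp [f, h.aeval_lin hd, h.aeval_hX, Matrix.mulVec, dotProduct, this]
  rw [e1, e2, e3, e4, Matrix.mulVec_mulVec, Matrix.adjugate_mul, Matrix.smul_mulVec,
    Matrix.one_mulVec, mul_comm]
  rfl

/-- The elliptic point. -/
theorem sol_ell (hp : Irreducible p) (hd : p.natDegree = s + 1) {θ : Ω} (h : aeval θ p = 0)
    (t : Ω) : Sol p t (aeval θ).toLinearMap (Pi.single (Fin.last s) (θ - t)) where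
  one := map_one (aeval θ)
  ker := root_iff hp h
  eq := fun a => by
    rw [Finset.sum_eq_single (Fin.last s) (fun b _ hb => by simp [hb]) (by simp)]
    simp only [Pi.single_eq_same, AlgHom.toLinearMap_apply, Fin.val_last, ← hd, root_pow hp h,
      map_mul, aeval_X]
    ring

end Pool.Agent.P.MP_7c5a52_nt.G
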