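import Pool.Agent.P.MP_7c5a52_nt.G.Moore

/-! Torsion points of a module with integral coefficients for a valuation. -/

open Polynomial

namespace Pool.Agent.P.MP_7c5a52_nt.G

section Itr
variable {R S : Type} [CommRing R] [CommRing S] {s : ℕ}

/-- Iterated composition. -/
noncomputable def itr (Φ : R[X]) : ℕ → R[X]
  | 0 => X
  | n + 1 => Φ.comp (itr Φ n)

/-- The polynomial of `φ_a`. -/
noncomputable def pa (Φ : R[X]) (a : ℕ → R) (d : ℕ) : R[X] :=
  ∑ n ∈ Finset.range (d + 1), C (a n) * itr Φ n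

/-- The polynomial of `φ_T`. -/
noncomputable def PhiG (q : ℕ) (t : R) (G : Fin (s + 1) → R) : R[X] :=
  C t * X + ∑ l, C (G l) * X ^ q ^ (l.1 + 1)

theorem map_itr (f : R →+* S) (Φ : R[X]) (n : ℕ) : (itr Φ n).map f = itr (Φ.map f) n := by
  induction n with
  | zero => simp [itr]
  | succ n ih => rw [itr, itr, map_comp, ih]

theorem map_pa (f : R →+* S) (Φ : R[X]) (a : ℕ → R) (d : ℕ) :
    (pa Φ a d).map f = pa (Φ.map f) (fun n => f (a n)) d := by
  simp [pa, Polynomial.map_sum, map_itr]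

theorem map_PhiG (f : R →+* S) (q : ℕ) (t : R) (G : Fin (s + 1) → R) :
    (PhiG q t G).map f = PhiG q (f t) fun l => f (G l) := by
  simp [PhiG, Polynomial.map_sum]

theorem der_itr {Φ : R[X]} {t : R} (h : derivative Φ = C t) (n : ℕ) :
    derivative (itr Φ n) = C (t ^ n) := by
  induction n with
  | zero => simp [itr]
  | succ n ih => rw [itr, derivative_comp, ih, h, C_comp, ← C_mul, pow_succ]

theorem der_pa {Φ : R[X]} {t : R} (h : derivative Φ = C t) (a : ℕ → R) (d : ℕ) :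
    derivative (pa Φ a d) = C (∑ n ∈ Finset.range (d + 1), a n * t ^ n) := by
  simp only [pa, derivative_sum, derivative_C_mul, der_itr h, map_sum, C_mul]

theorem der_PhiG {q : ℕ} (hq : (q : R) = 0) (t : R) (G : Fin (s + 1) → R) :
    derivative (PhiG q t G) = C t := by
  simp [PhiG, derivative_X_pow, hq]

theorem eval_PhiG (q : ℕ) (t : R) (G : Fin (s + 1) → R) (z : R) :
    (PhiG q t G).eval z = t * z + ∑ l, G l * z ^ q ^ (l.1 + 1) := by
  simp [PhiG, eval_finset_sum]

variable [IsDomain R]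

theorem deg_itr {Φ : R[X]} (h : Φ.natDegree ≠ 0) (n : ℕ) :
    (itr Φ n).natDegree = Φ.natDegree ^ n ∧
      (itr Φ n).leadingCoeff = Φ.leadingCoeff ^ ∑ i ∈ Finset.range n, Φ.natDegree ^ i := by
  induction n with
  | zero => simp [itr]
  | succ n ih =>
    rw [itr, natDegree_comp, leadingCoeff_comp (ih.1 ▸ pow_ne_zero n h), ih.1, ih.2,
      geom_sum_succ, pow_succ', ← pow_mul, pow_succ', mul_comm (Φ.natDegree) (∑ _ ∈ _, _)]
    exact ⟨rfl, rfl⟩

theorem deg_pa {Φ : R[X]} (h : 1 < Φ.natDegree) {a : ℕ → R} {d : ℕ} (ha : a d ≠ 0) :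
    (pa Φ a d).natDegree = Φ.natDegree ^ d ∧ (pa Φ a d).leadingCoeff =
      a d * Φ.leadingCoeff ^ ∑ i ∈ Finset.range d, Φ.natDegree ^ i := by
  have h0 : Φ.natDegree ≠ 0 := by omega
  have h1 : (C (a d) * itr Φ d).natDegree = Φ.natDegree ^ d := by
    rw [natDegree_C_mul ha, (deg_itr h0 d).1]
  have h2 : (∑ n ∈ Finset.range d, C (a n) * itr Φ n).natDegree <
      (C (a d) * itr Φ d).natDegree := by
    rw [h1]
    refine lt_of_le_of_lt (natDegree_sum_le_of_forall_le (n := Φ.natDegree ^ d - 1) _ _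
      fun n hn => ?_) (Nat.sub_lt (pow_pos (by omega) d) Nat.one_pos)
    refine (natDegree_C_mul_le _ _).trans ?_
    rw [(deg_itr h0 n).1]
    exact Nat.le_sub_one_of_lt (Nat.pow_lt_pow_right h (Finset.mem_range.1 hn))
  rw [pa, Finset.sum_range_succ, natDegree_add_eq_right_of_natDegree_lt h2,
    leadingCoeff_add_of_degree_lt (degree_lt_degree h2), h1, leadingCoeff_mul, leadingCoeff_C,
    (deg_itr h0 d).2]
  exact ⟨rfl, rfl⟩

omit [IsDomain R] in
theorem deg_PhiG {q : ℕ} (hq : 1 < q) (t : R) {G : Fin (s + 1) → R} {l0 : Fin (s + 1)}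
    (h0 : G l0 ≠ 0) (h1 : ∀ l, l0 < l → G l = 0) :
    (PhiG q t G).natDegree = q ^ (l0.1 + 1) ∧ (PhiG q t G).leadingCoeff = G l0 := by
  have hlt : 1 < q ^ (l0.1 + 1) := Nat.one_lt_pow (Nat.succ_ne_zero _) hq
  have hc : (PhiG q t G).coeff (q ^ (l0.1 + 1)) = G l0 := by
    rw [PhiG, coeff_add, coeff_C_mul, coeff_X_of_ne_one hlt.ne', mul_zero, zero_add,
      finset_sum_coeff, Finset.sum_eq_single l0 (fun b _ hb => by
        rw [coeff_C_mul_X_pow, if_neg fun e => hb
          (Fin.ext (Nat.succ_injective (Nat.pow_right_injective hq e))).symm]) (by simp),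
      coeff_C_mul_X_pow, if_pos rfl]
  have hd : (PhiG q t G).natDegree = q ^ (l0.1 + 1) := by
    refine natDegree_eq_of_le_of_coeff_ne_zero ((natDegree_add_le _ _).trans (max_le
      (((natDegree_C_mul_le _ _).trans natDegree_X_le).trans hlt.le)
      (natDegree_sum_le_of_forall_le _ _ fun l _ => ?_))) (hc ▸ h0)
    rcases le_or_gt l l0 with h | h
    · exact (natDegree_C_mul_X_pow_le _ _).trans
        (Nat.pow_le_pow_right hq.le (Nat.succ_le_succ h))
    · simp [h1 l h]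
  exact ⟨hd, by rw [leadingCoeff, hd, hc]⟩

end Itr

variable {k Ω : Type} [Field k] [Field Ω] [Algebra k Ω] {s : ℕ}

theorem eval_pa {Φ : Polynomial Ω} {φ : Module.End k Ω} (h : ∀ z, Φ.eval z = φ z) (p : k[X]) (z : Ω) :
    (pa Φ (fun n => algebraMap k Ω (p.coeff n)) p.natDegree).eval z = aeval φ p z := by
  have h1 : ∀ n, (itr Φ n).eval z = (φ ^ n) z := fun n => by
    induction n with
    | zero => simp [itr]
    | succ n ih => rw [itr, eval_comp, ih, h, pow_succ', Module.End.mul_apply]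
  simp only [pa, eval_finset_sum, eval_mul, eval_C, h1, aeval_eq_sum_range, LinearMap.sum_apply,
    LinearMap.smul_apply]
  simp only [Algebra.smul_def]

theorem aeval_comm {M : Type} [AddCommGroup M] [Module k M] {φ : Module.End k M}
    {φ' : Module.End k Ω} (σ : M →ₗ[k] Ω) (h : ∀ z, σ (φ z) = φ' (σ z)) (a : k[X]) (z : M) :
    σ (aeval φ a z) = aeval φ' a (σ z) := by
  induction a using Polynomial.induction_on generalizing z with
  | C a => simp
  | add a b ha hb => simp [ha, hb]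
  | monomial n a ih =>
    rw [pow_succ, ← mul_assoc, map_mul, map_mul _ _ X, aeval_X, aeval_X, Module.End.mul_apply,
      Module.End.mul_apply, ih, h]

theorem exists_roots [IsSepClosed Ω] {f : Polynomial Ω} {b : Ω} (hb : b ≠ 0) (h : derivative f = C b) :
    ∃ Λ : Finset Ω, Λ.card = f.natDegree ∧ (∀ x, x ∈ Λ ↔ f.eval x = 0) ∧
      f = C f.leadingCoeff * ∏ x ∈ Λ, (X - C x) := by
  have hsep : f.Separable := by
    rw [separable_def, h]
    exact ⟨0, C b⁻¹, by rw [zero_mul, zero_add, ← C_mul, inv_mul_cancel₀ hb, C_1]⟩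
  have hs := IsSepClosed.splits_of_separable f hsep
  exact ⟨⟨f.roots, nodup_roots hsep⟩, hs.natDegree_eq_card_roots.symm,
    fun x => mem_roots hsep.ne_zero, hs.eq_prod_roots⟩

open Classical in
theorem newton (W : ValuationSubring Ω) (f : W[X]) (Λ : Finset Ω) (κ : Ω)
    (hf : f.map W.subtype = C κ * ∏ x ∈ Λ, (X - C x))
    (h0 : f.map (IsLocalRing.residue W) ≠ 0) :
    (f.map (IsLocalRing.residue W)).natDegree = (Λ.filter (· ∈ W)).card ∧
      W.valuation κ * ∏ x ∈ Λ.filter (· ∉ W), W.valuation x = 1 := by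
  let ρ := IsLocalRing.residue W
  have lt : ∀ a : W, ρ a = 0 ↔ W.valuation a < 1 := fun a => by
    rw [IsLocalRing.residue_eq_zero_iff, W.valuation_lt_one_iff]
  let lf : Ω → W := fun x => if h : x ∈ W then ⟨x, h⟩ else 0
  have hlf : ∀ x ∈ W, (lf x : Ω) = x := fun x hx => by simp [lf, hx]
  have big : ∀ x, x ∉ W → x ≠ 0 ∧ x⁻¹ ∈ W ∧ W.valuation x⁻¹ < 1 := fun x hx => by
    have h1 : 1 < W.valuation x := not_le.1 ((W.valuation_le_one_iff x).not.2 hx)
    exact ⟨fun e => hx (e ▸ W.zero_mem), (W.mem_or_inv_mem x).resolve_left hx, by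
      rw [map_inv₀]; exact inv_lt_one_of_one_lt₀ h1⟩
  let f1 : W[X] := ∏ x ∈ Λ.filter (· ∈ W), (X - C (lf x))
  let f2 : W[X] := ∏ x ∈ Λ.filter (· ∉ W), (1 - C (lf x⁻¹) * X)
  let κ' := κ * ∏ x ∈ Λ.filter (· ∉ W), -x
  have e1 : f.map W.subtype = C κ' * (f1 * f2).map W.subtype := by
    rw [hf, ← Finset.prod_filter_mul_prod_filter_not Λ (· ∈ W), Polynomial.map_mul,
      Polynomial.map_prod, Polynomial.map_prod, C_mul, map_prod, mul_assoc,
      mul_left_comm (∏ _ ∈ _, _), ← Finset.prod_mul_distrib]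
    congr 2
    · refine Finset.prod_congr rfl fun x hx => ?_
      simp [hlf x (Finset.mem_filter.1 hx).2]
    · refine Finset.prod_congr rfl fun x hx => ?_
      obtain ⟨b0, b1, _⟩ := big x (Finset.mem_filter.1 hx).2
      have : C x * C x⁻¹ = (1 : Polynomial Ω) := by rw [← C_mul, mul_inv_cancel₀ b0, C_1]
      simp only [Polynomial.map_sub, Polynomial.map_one, Polynomial.map_mul, map_C, map_X,
        ValuationSubring.coe_subtype, hlf _ b1, C_neg]
      linear_combination (-X) * this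
  have e2 : f2.map ρ = 1 := by
    rw [Polynomial.map_prod]
    refine Finset.prod_eq_one fun x hx => ?_
    obtain ⟨_, b1, b2⟩ := big x (Finset.mem_filter.1 hx).2
    simp [(lt (lf x⁻¹)).2 (by rwa [hlf _ b1])]
  have e3 : (f1.map ρ).Monic ∧ (f1.map ρ).natDegree = (Λ.filter (· ∈ W)).card := by
    simp only [f1, Polynomial.map_prod, Polynomial.map_sub, map_X, map_C]
    exact ⟨monic_prod_of_monic _ _ fun _ _ => monic_X_sub_C _, natDegree_finsetProd_X_sub_C_eq_card _ _⟩
  have hv : W.valuation κ' = W.valuation κ * ∏ x ∈ Λ.filter (· ∉ W), W.valuation x := by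
    simp [κ', map_prod]
  have inj := map_injective W.subtype W.subtype_injective
  by_cases hκ : κ' ∈ W
  · have e4 : f = C ⟨κ', hκ⟩ * (f1 * f2) := inj (by rw [Polynomial.map_mul, map_C, e1]; rfl)
    have e5 : f.map ρ = C (ρ ⟨κ', hκ⟩) * f1.map ρ := by
      rw [e4, Polynomial.map_mul, Polynomial.map_mul, map_C, e2, mul_one]
    have e6 : ρ ⟨κ', hκ⟩ ≠ 0 := fun e => h0 (by rw [e5, e, C_0, zero_mul])
    refine ⟨by rw [e5, natDegree_C_mul e6, e3.2], hv ▸ ?_⟩
    exact le_antisymm ((W.valuation_le_one_iff _).2 hκ) (not_lt.1 ((lt _).not.1 e6))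
  · obtain ⟨b0, b1, b2⟩ := big _ hκ
    have e4 : C ⟨κ'⁻¹, b1⟩ * f = f1 * f2 := inj (by
      rw [Polynomial.map_mul, e1, map_C, ← mul_assoc, ← C_mul]
      simp [b0])
    have e5 := congrArg (Polynomial.map ρ) e4
    rw [Polynomial.map_mul, Polynomial.map_mul, map_C, (lt _).2 b2, C_0, zero_mul, e2,
      mul_one] at e5
    exact absurd e5.symm e3.1.ne_zero

open Classical in
/-- The cyclic submodule either consists of units or the dual isogeny has unit leading
coefficient. -/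
theorem val_dich [Fintype k] [IsSepClosed Ω] [DecidableEq Ω] (W : ValuationSubring Ω)
    (hk : ∀ a : k, algebraMap k Ω a ∈ W) {t : Ω} (ht : t ∈ W) {p : k[X]} (hp : Irreducible p)
    (hpt : W.valuation (aeval t p) = 1) {G : Fin (s + 2) → Ω} (hG : ∀ l, G l ∈ W)
    (hG0 : G (Fin.last _) ≠ 0)
    (h2 : W.valuation (G (Fin.last _)) = 1 ∨ W.valuation (G (Fin.last s).castSucc) = 1)
    {φ : Module.End k Ω} (hφ : ∀ z, φ z = t * z + ∑ l, G l * z ^ Fintype.card k ^ (l.1 + 1))
    {c : Ω} (hc : ∀ a : k[X], aeval φ a c = 0 ↔ p ∣ a) {Cs : Finset Ω}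
    (hcard : Cs.card = Fintype.card k ^ p.natDegree)
    (hC : ∀ y, y ∈ Cs ↔ ∃ a : k[X], aeval φ a c = y) :
    ∏ y ∈ Cs.erase 0, W.valuation y = 1 ∨
      W.valuation (G (Fin.last _)) ^
        (∑ i ∈ Finset.range p.natDegree, (Fintype.card k ^ (s + 2)) ^ i) *
        (∏ y ∈ Cs.erase 0, W.valuation y) ^ (Fintype.card k ^ (s + 1)) ^ p.natDegree = 1 := by
  set q := Fintype.card k with hq
  set d := p.natDegree with hd
  have hq1 : 1 < q := Fintype.one_lt_card
  let ρ := IsLocalRing.residue W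
  have eq : ∀ a : W, ρ a ≠ 0 ↔ W.valuation a = 1 := fun a => by
    rw [IsLocalRing.residue_ne_zero_iff_isUnit, W.valuation_eq_one_iff]
  let tW : W := ⟨t, ht⟩
  let GW : Fin (s + 2) → W := fun l => ⟨G l, hG l⟩
  let aW : ℕ → W := fun n => ⟨_, hk (p.coeff n)⟩
  let fW := pa (PhiG q tW GW) aW d
  have hf : fW.map W.subtype = pa (PhiG q t G) (fun n => algebraMap k Ω (p.coeff n)) d := by
    rw [map_pa, map_PhiG]; rfl
  have hev : ∀ z, (fW.map W.subtype).eval z = aeval φ p z := fun z => by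
    rw [hf]; exact eval_pa (fun z => by rw [eval_PhiG, hφ]) p z
  have hder := der_pa (der_PhiG (q := q) (Subtype.ext (by simpa using q_cast k (Ω := Ω))) tW GW)
    aW d
  set b := ∑ n ∈ Finset.range (d + 1), aW n * tW ^ n with hb
  have hb' : (b : Ω) = aeval t p := by
    rw [aeval_eq_sum_range, hb]
    simp [aW, tW, Algebra.smul_def, hd]
  have hc0 : c ≠ 0 := fun e => hp.not_dvd_one ((hc 1).1 (by simp [e]))
  have hkill : ∀ y ∈ Cs, aeval φ p y = 0 := fun y hy => by
    obtain ⟨a, rfl⟩ := (hC y).1 hy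
    rw [← Module.End.mul_apply, ← map_mul, hc]
    exact dvd_mul_right _ _
  have hst : ∀ (a : k[X]) z, z ∈ W → aeval φ a z ∈ W := fun a => by
    induction a using Polynomial.induction_on with
    | C a => exact fun z hz => by simpa [Algebra.smul_def] using W.mul_mem _ _ (hk a) hz
    | add a b ha hb => exact fun z hz => by simpa using W.add_mem _ _ (ha z hz) (hb z hz)
    | monomial n a ih =>
      intro z hz
      rw [pow_succ, ← mul_assoc, map_mul, aeval_X, Module.End.mul_apply]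
      refine ih _ ?_
      rw [hφ]
      exact add_mem (mul_mem ht hz) (sum_mem fun l _ => mul_mem (hG l) (pow_mem hz _))
  by_cases hA : ∃ y ∈ Cs, y ≠ 0 ∧ y ∈ W
  · obtain ⟨y, hy, hy0, hyW⟩ := hA
    obtain ⟨a, rfl⟩ := (hC y).1 hy
    obtain ⟨u, w, huw⟩ := (hp.coprime_iff_not_dvd).2 ((hc a).not.1 hy0)
    have hcW : c ∈ W := by
      have := congrArg (fun x => aeval φ x c) huw
      simp only [map_add, LinearMap.add_apply, (hc (u * p)).2 (dvd_mul_left _ _), zero_add,
        map_one, Module.End.one_apply] at this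
      rw [← this, map_mul]
      exact hst _ _ hyW
    refine .inl (Finset.prod_eq_one fun y hy => ?_)
    obtain ⟨hy0, hy⟩ := Finset.mem_erase.1 hy
    have hyW : y ∈ W := by
      obtain ⟨a, rfl⟩ := (hC y).1 hy
      exact hst _ _ hcW
    have hz : ∀ z : W, aeval φ p (z : Ω) = 0 → fW.eval z = 0 := fun z hz =>
      W.subtype_injective (by rw [← eval₂_hom, ← eval_map, hev, map_zero]; exact hz)
    obtain ⟨κ, hκ⟩ := binomExpansion fW 0 ⟨y, hyW⟩
    rw [zero_add, hz _ (hkill y hy), hz 0 (by simp), hder, eval_C] at hκ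
    have h3 : (b : Ω) = -κ * y := mul_right_cancel₀ hy0 (by
      have := congrArg W.subtype hκ
      simp only [map_zero, map_add, map_mul, map_pow, ValuationSubring.coe_subtype] at this
      linear_combination -this)
    refine le_antisymm ((W.valuation_le_one_iff _).2 hyW) ?_
    rw [← hpt, ← hb', h3, map_mul, Valuation.map_neg]
    exact mul_le_of_le_one_left' (W.valuation_le_one κ)
  push Not at hA
  have hb0 : (b : Ω) ≠ 0 := fun e => by simp [← hb', e] at hpt
  obtain ⟨Λ, hΛ, hΛ', hfac⟩ := exists_roots (f := fW.map W.subtype) hb0 (by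
    rw [derivative_map, hder, map_C]; rfl)
  simp only [hev] at hΛ'
  have hlc : p.coeff d ≠ 0 := leadingCoeff_ne_zero.2 hp.ne_zero
  have hv1 : W.valuation (algebraMap k Ω (p.coeff d)) = 1 := by
    refine le_antisymm ((W.valuation_le_one_iff _).2 (hk _)) ?_
    have := (W.valuation_le_one_iff _).2 (hk (p.coeff d)⁻¹)
    rwa [map_inv₀, map_inv₀, inv_le_one₀ (zero_lt_iff.2 ((_root_.map_ne_zero _).2
      ((_root_.map_ne_zero _).2 hlc)))] at this
  obtain ⟨d1, l1⟩ := deg_PhiG hq1 t hG0 fun l hl => absurd hl (not_lt.2 (Fin.le_last l))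
  obtain ⟨d2, l2⟩ := deg_pa (Φ := PhiG q t G) (d := d) (a := fun n => algebraMap k Ω (p.coeff n))
    (d1 ▸ Nat.one_lt_pow (Nat.succ_ne_zero _) hq1) ((_root_.map_ne_zero _).2 hlc)
  rw [← hf, d1, Fin.val_last] at d2 l2
  rw [l1] at l2
  have hred : ∀ l0 : Fin (s + 2), W.valuation (G l0) = 1 →
      (∀ l, l0 < l → W.valuation (G l) ≠ 1) →
      (Λ.filter (· ∈ W)).card = (q ^ (l0.1 + 1)) ^ d ∧
        W.valuation (fW.map W.subtype).leadingCoeff *
          ∏ x ∈ Λ.filter (· ∉ W), W.valuation x = 1 := fun l0 g0 g1 => by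
    obtain ⟨d3, _⟩ := deg_PhiG hq1 (ρ tW) (G := fun l => ρ (GW l)) ((eq (GW l0)).2 g0)
      fun l hl => by_contra fun h => g1 l hl ((eq (GW l)).1 h)
    obtain ⟨d4, _⟩ := deg_pa (Φ := PhiG q (ρ tW) fun l => ρ (GW l)) (d := d)
      (a := fun n => ρ (aW n)) (d3 ▸ Nat.one_lt_pow (Nat.succ_ne_zero _) hq1) ((eq (aW d)).2 hv1)
    rw [d3, ← map_PhiG, ← map_pa] at d4
    obtain ⟨n1, n2⟩ := newton W fW Λ _ hfac fun e => by
      rw [show Polynomial.map ρ (pa (PhiG q tW GW) aW d) = 0 from e, natDegree_zero] at d4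
      exact absurd d4.symm (by positivity)
    exact ⟨n1.symm.trans d4, n2⟩
  by_cases hl : W.valuation (G (Fin.last _)) = 1
  · have := (hred _ hl fun l hl => absurd hl (not_lt.2 (Fin.le_last l))).1
    rw [Fin.val_last, ← d2, ← hΛ, Finset.card_filter_eq_iff] at this
    have hcC : c ∈ Cs := (hC c).2 ⟨1, by simp⟩
    exact absurd (this c ((hΛ' c).2 (hkill c hcC))) (hA c hcC hc0)
  obtain ⟨n1, n2⟩ := hred _ (h2.resolve_left hl) fun l hl' => by
    rwa [show l = Fin.last _ from Fin.ext (by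
      have := l.2
      simp only [Fin.lt_def, Fin.val_castSucc, Fin.val_last] at hl' ⊢
      omega)]
  rw [Fin.val_castSucc, Fin.val_last] at n1
  have h0C : (0 : Ω) ∈ Cs := (hC 0).2 ⟨0, by simp⟩
  have hinj : Set.InjOn (fun z : Ω × Ω => z.1 + z.2)
      ((Λ.filter (· ∈ W) ×ˢ Cs.erase 0 : Finset (Ω × Ω)) : Set (Ω × Ω)) := by
    rintro ⟨x, y⟩ h ⟨x', y'⟩ h' (e : x + y = x' + y')
    simp only [Finset.mem_coe, Finset.mem_product, Finset.mem_filter, Finset.mem_erase] at h h'
    obtain ⟨a, ha⟩ := (hC y).1 h.2.2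
    obtain ⟨a', ha'⟩ := (hC y').1 h'.2.2
    have h3 : y - y' = 0 := by_contra fun h3 => hA _ ((hC _).2 ⟨a - a', by simp [ha, ha']⟩) h3
      ((by linear_combination -e : x' - x = y - y') ▸ sub_mem h'.1.2 h.1.2)
    exact Prod.ext (by linear_combination e - h3) (sub_eq_zero.1 h3)
  have himg : (Λ.filter (· ∈ W) ×ˢ Cs.erase 0).image (fun z : Ω × Ω => z.1 + z.2) =
      Λ.filter (· ∉ W) := by
    refine Finset.eq_of_subset_of_card_le (fun z hz => ?_) ?_
    · obtain ⟨⟨x, y⟩, h, rfl⟩ := Finset.mem_image.1 hz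
      simp only [Finset.mem_product, Finset.mem_filter, Finset.mem_erase] at h ⊢
      refine ⟨(hΛ' _).2 (by rw [map_add, (hΛ' x).1 h.1.1, hkill y h.2.2, add_zero]), fun h3 =>
        hA y h.2.2 h.2.1 ?_⟩
      simpa using sub_mem h3 h.1.2
    · have := Finset.card_filter_add_card_filter_not (s := Λ) (· ∈ W)
      rw [Finset.card_image_of_injOn hinj, Finset.card_product, Finset.card_erase_of_mem h0C,
        hcard, Nat.mul_sub_one, n1, ← mul_pow, ← pow_succ]
      rw [n1, hΛ, d2] at this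
      omega
  rw [← himg, Finset.prod_image hinj, l2, map_mul, hv1, one_mul, map_pow] at n2
  refine .inr (n2 ▸ congrArg _ ?_)
  rw [Finset.prod_product, ← n1, ← Finset.prod_const]
  refine Finset.prod_congr rfl fun x hx => Finset.prod_congr rfl fun y hy => ?_
  obtain ⟨hy0, hy⟩ := Finset.mem_erase.1 hy
  exact (Valuation.map_add_eq_of_lt_right _ (lt_of_le_of_lt
    ((W.valuation_le_one_iff _).2 (Finset.mem_filter.1 hx).2)
    (not_le.1 ((W.valuation_le_one_iff y).not.2 (hA y hy hy0))))).symm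

end Pool.Agent.P.MP_7c5a52_nt.G
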