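import Pool.Agent.P.MP_7c5a52_nt.G.Newton

/-! The generic module and the function field of `X_0^r(p)` for `p` of degree `r`. -/

open Polynomial

set_option linter.unusedSectionVars false

namespace Pool.Agent.P.MP_7c5a52_nt.G

/-- `E` is the rational function field on `j`. -/
class GenJ (F : Type) {E : Type} [Field F] [Field E] [Algebra F E] {s : ℕ} (j : Fin s → E) :
    Prop where
  indep : AlgebraicIndependent F j
  gen : IntermediateField.adjoin F (Set.range j) = ⊤

/-- `T` is transcendental. -/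
class GenT (k : Type) {F : Type} [Field k] [Field F] [Algebra k F] (T : F) : Prop where
  tr : Transcendental k T

variable {k F E Ω : Type} [Field k] [Fintype k] [Field F] [Field E] [Field Ω] [Algebra k Ω]
  [Algebra F Ω] [Algebra E Ω] {T : F} {s : ℕ} {j : Fin s → E} [Algebra k F] [Algebra F E]
  [IsScalarTower F E Ω] [IsScalarTower k F Ω] [GenJ F j] [GenT k T]

variable (Ω T) in
/-- The element `T`. -/
noncomputable abbrev TT : Ω := algebraMap F Ω T

variable (Ω j) in
/-- The coordinates `j_2, ..., j_r`. -/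
noncomputable def jj : Fin s → Ω := fun i => g Ω j i.succ

theorem phiT_apply (z : Ω) : phiT k Ω T j z = TT Ω T * z +
    ∑ l, g Ω j l * z ^ Fintype.card k ^ (l.1 + 1) := by
  simp [phiT, frob_pow]

theorem g_zero : g Ω j 0 = 1 := rfl

theorem g_mem (l : Fin (s + 1)) : ∃ e : E, algebraMap _ Ω e = g Ω j l :=
  Fin.cases ⟨1, map_one _⟩ (fun _ => ⟨_, rfl⟩) l

theorem fix_g (σ : Ω ≃ₐ[E] Ω) (l : Fin (s + 1)) : σ (g Ω j l) = g Ω j l := by
  obtain ⟨e, he⟩ := g_mem (Ω := Ω) (j := j) l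
  rw [← he, σ.commutes]

theorem aeval_jj (a : MvPolynomial (Fin s) F) : MvPolynomial.aeval (jj Ω j) a =
    algebraMap E Ω (MvPolynomial.aeval j a) :=
  MvPolynomial.aeval_algebraMap_apply Ω j a

theorem jj_indep : AlgebraicIndependent (Fsep F Ω) (jj Ω j) := by
  have : AlgebraicIndependent F (jj Ω j) := fun a b e => by
    rw [aeval_jj, aeval_jj] at e
    exact GenJ.indep (j := j) ((algebraMap E Ω).injective e)
  exact this.extendScalars _

variable (F) in
include F in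
theorem g_ne (l : Fin (s + 1)) : g Ω j l ≠ 0 :=
  Fin.cases one_ne_zero (fun i => (jj_indep (F := F) (Ω := Ω)).ne_zero i) l

theorem E_mem (e : E) :
    algebraMap _ Ω e ∈ IntermediateField.adjoin F (Set.range (jj Ω j)) := by
  obtain ⟨a, b, rfl⟩ := (IntermediateField.mem_adjoin_range_iff F j e).1
    (GenJ.gen (F := F) (j := j) ▸ IntermediateField.mem_top)
  exact (IntermediateField.mem_adjoin_range_iff _ _ _).2 ⟨a, b, by
    rw [map_div₀, aeval_jj, aeval_jj]⟩

theorem E_mem' (e : E) :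
    algebraMap _ Ω e ∈ IntermediateField.adjoin (Fsep F Ω) (Set.range (jj Ω j)) :=
  (IntermediateField.adjoin_le_iff (T := (IntermediateField.adjoin (Fsep F Ω)
    (Set.range (jj Ω j))).restrictScalars F)).2
    (IntermediateField.subset_adjoin (Fsep F Ω) _) (E_mem e)

theorem fix_F (σ : Ω ≃ₐ[E] Ω) (a : F) :
    σ (algebraMap _ Ω a) = algebraMap _ Ω a := by
  rw [IsScalarTower.algebraMap_apply F E Ω, σ.commutes]

theorem map_Fsep (σ : Ω ≃ₐ[E] Ω) {y : Ω} (hy : y ∈ Fsep F Ω) : σ y ∈ Fsep F Ω :=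
  IsSeparable.map (σ.toAlgHom.restrictScalars F) σ.injective hy

variable (F) in
include F in
theorem fix_k (σ : Ω ≃ₐ[E] Ω) (a : k) : σ (algebraMap _ Ω a) = algebraMap _ Ω a := by
  rw [IsScalarTower.algebraMap_apply k F Ω, fix_F]

theorem comm_phi (σ : Ω ≃ₐ[E] Ω) (a : k[X]) (z : Ω) :
    σ (aeval (phiT k Ω T j) a z) = aeval (phiT k Ω T j) a (σ z) :=
  aeval_comm (⟨(σ : Ω →+* Ω), fix_k F σ⟩ : Ω →ₐ[k] Ω).toLinearMap (fun z => by
    change σ _ = phiT k Ω T j (σ z)
    simp only [phiT_apply, map_add, map_mul, map_pow, map_sum, fix_F, fix_g]) a z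

theorem aeval_TT {a : k[X]} (ha : a ≠ 0) : aeval (TT Ω T) a ≠ 0 := by
  rw [TT, aeval_algebraMap_apply, _root_.map_ne_zero]
  exact fun e => GenT.tr (k := k) (T := T) ⟨a, ha, e⟩

theorem root_mem {p : k[X]} (hp : Irreducible p) {θ : Ω} (h : aeval θ p = 0) : θ ∈ Fsep F Ω :=
  IsSeparable.tower_top F (F := k)
    ((PerfectField.separable_of_irreducible hp).of_dvd (minpoly.dvd k θ h))

variable {p : k[X]} {c c' : Ω}

theorem lev_iff (h : IsLevel k T j (Ideal.span {p}) c) (a : k[X]) :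
    aeval (phiT k Ω T j) a c = 0 ↔ p ∣ a := (h a).trans Ideal.mem_span_singleton

theorem lev_mul (h : IsLevel k T j (Ideal.span {p}) c) (hp : Irreducible p) {b : k[X]}
    (hb : ¬ p ∣ b) : IsLevel k T j (Ideal.span {p}) (aeval (phiT k Ω T j) b c) := fun a => by
  rw [← Module.End.mul_apply, ← map_mul, lev_iff h, Ideal.mem_span_singleton, hp.prime.dvd_mul,
    or_iff_left hb]

theorem lev_ne (h : IsLevel k T j (Ideal.span {p}) c) (hp : Irreducible p) : c ≠ 0 :=
  fun e => hp.not_dvd_one ((lev_iff h 1).1 (by simp [e]))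

theorem mem_gal {σ : Ω ≃ₐ[E] Ω} : σ ∈ gal k T j c ↔
    σ '' (Set.range fun a : k[X] => aeval (phiT k Ω T j) a c) =
      Set.range fun a : k[X] => aeval (phiT k Ω T j) a c := Iff.rfl

theorem gal_of (h : IsLevel k T j (Ideal.span {p}) c) (hp : Irreducible p) {σ : Ω ≃ₐ[E] Ω}
    {b : k[X]} (hb : ¬ p ∣ b) (e : σ c = aeval (phiT k Ω T j) b c) : σ ∈ gal k T j c := by
  refine mem_gal.2 (Set.Subset.antisymm ?_ ?_)
  · rintro _ ⟨_, ⟨a, rfl⟩, rfl⟩
    exact ⟨a * b, by simp only [comm_phi, e, map_mul, Module.End.mul_apply]⟩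
  · rintro _ ⟨a, rfl⟩
    obtain ⟨u, w, huw⟩ := (hp.coprime_iff_not_dvd).2 hb
    refine ⟨_, ⟨a * w, rfl⟩, ?_⟩
    have := congrArg (fun x => aeval (phiT k Ω T j) (a * x) c) huw
    simp only [mul_add, map_add, LinearMap.add_apply, mul_one,
      (lev_iff h (a * (u * p))).2 ⟨a * u, by ring⟩, zero_add] at this
    simp only [comm_phi, e, ← this, map_mul, Module.End.mul_apply]

theorem mem_funField {z : Ω} : z ∈ funField k T j c ↔
    ∀ σ ∈ gal k T j c, (∀ y ∈ Fsep F Ω, σ y = y) → σ z = z := by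
  rw [funField, IntermediateField.mem_fixedField_iff]
  exact ⟨fun h σ h1 h2 => h σ ⟨h1, (mem_fixingSubgroup_iff _).2 h2⟩,
    fun h σ h1 => h σ h1.1 ((mem_fixingSubgroup_iff _).1 h1.2)⟩

theorem map_funField {σ : Ω ≃ₐ[E] Ω} (hσ : σ ∈ gal k T j c) {z : Ω} (hz : z ∈ funField k T j c) :
    σ z ∈ funField k T j c := by
  rw [mem_funField] at *
  intro τ hτ hfix
  have := hz (σ⁻¹ * τ * σ) (mul_mem (mul_mem (inv_mem hσ) hτ) hσ) fun y hy => by
    simp [hfix _ (map_Fsep σ hy)]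
  simpa using congrArg σ this

/-- Existence of a point of exact order `p`. -/
theorem exists_level [IsSepClosed Ω] (hp : Irreducible p) :
    ∃ c : Ω, IsLevel k T j (Ideal.span {p}) c := by
  have hq1 : 1 < Fintype.card k := Fintype.one_lt_card
  obtain ⟨d1, _⟩ := deg_PhiG hq1 (TT Ω T) (g_ne F (Ω := Ω) (j := j) (Fin.last s))
    fun l hl => absurd hl (not_lt.2 (Fin.le_last l))
  have h1 := d1 ▸ Nat.one_lt_pow (Nat.succ_ne_zero _) hq1
  obtain ⟨d2, _⟩ := deg_pa (d := p.natDegree) (a := fun n => algebraMap k Ω (p.coeff n)) h1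
    ((_root_.map_ne_zero _).2 (leadingCoeff_ne_zero.2 hp.ne_zero))
  obtain ⟨Λ, hΛ, hΛ', _⟩ := exists_roots (aeval_TT (Ω := Ω) (T := T) hp.ne_zero)
    ((der_pa (der_PhiG (q_cast k) (TT Ω T) (g Ω j)) (fun n => algebraMap k Ω (p.coeff n))
      p.natDegree).trans (by rw [aeval_eq_sum_range]; simp only [Algebra.smul_def]))
  obtain ⟨c, hc, hc0⟩ := Finset.exists_mem_ne (s := Λ)
    (by rw [hΛ, d2]; exact Nat.one_lt_pow hp.natDegree_pos.ne' h1) 0
  have hpc : aeval (phiT k Ω T j) p c = 0 := by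
    rw [← eval_pa (fun z => (eval_PhiG _ _ _ z).trans (phiT_apply z).symm), ← hΛ']
    exact hc
  refine ⟨c, fun a => ?_⟩
  rw [Ideal.mem_span_singleton]
  refine ⟨fun h => by_contra fun hn => hc0 ?_, ?_⟩
  · obtain ⟨u, w, huw⟩ := (hp.coprime_iff_not_dvd).2 hn
    simpa [h, hpc] using (congrArg (fun x => aeval (phiT k Ω T j) x c) huw).symm
  · rintro ⟨b, rfl⟩
    simp [mul_comm p, hpc]

variable (T j) in
/-- Standing hypotheses. -/
structure Hyp (p : k[X]) (c : Ω) : Prop where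
  irr : Irreducible p
  deg : p.natDegree = s + 1
  lev : IsLevel k T j (Ideal.span {p}) c

theorem Hyp.ne (H : Hyp T j p c) : c ≠ 0 := lev_ne H.lev H.irr

variable (k T j) in
/-- The map `a ↦ φ_a c`. -/
noncomputable def orb (c : Ω) : k[X] →ₗ[k] Ω :=
  LinearMap.applyₗ c ∘ₗ (aeval (phiT k Ω T j)).toLinearMap

theorem orb_apply (a : k[X]) : orb k T j c a = aeval (phiT k Ω T j) a c := rfl

variable (k T j) in
/-- The map `a ↦ φ_a c / c`. -/
noncomputable def psi (c : Ω) : k[X] →ₗ[k] Ω := LinearMap.mulRight k c⁻¹ ∘ₗ orb k T j c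

theorem psi_apply (a : k[X]) : psi k T j c a = aeval (phiT k Ω T j) a c / c :=
  (div_eq_mul_inv _ _).symm

variable (k T j) in
/-- Affine coordinates. -/
noncomputable abbrev vv (c : Ω) : Fin s → Ω := co s (psi k T j c)

variable (k) in
/-- The weights. -/
def wt (l : Fin (s + 1)) : ℕ := Fintype.card k ^ (l.1 + 1) - 1

theorem wt_succ (l : Fin (s + 1)) : wt k l + 1 = Fintype.card k ^ (l.1 + 1) :=
  Nat.sub_add_cancel (Nat.one_le_iff_ne_zero.2 (pow_ne_zero _ q_ne))

variable (k j) in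
/-- Coefficients of the module rescaled by `x`. -/
noncomputable def resc (x : Ω) (l : Fin (s + 1)) : Ω := g Ω j l * x ^ wt k l

theorem Hyp.sol (H : Hyp T j p c) : Sol p (TT Ω T) (psi k T j c) (resc k j c) where
  one := by simp [psi_apply, H.ne]
  ker := fun a => by rw [psi_apply, div_eq_zero_iff, or_iff_left H.ne, lev_iff H.lev]
  eq := fun a => by
    have := H.ne
    simp only [psi_apply, map_mul, aeval_X, Module.End.mul_apply, phiT_apply, add_div,
      Finset.sum_div, mul_div_assoc, add_sub_cancel_left]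
    refine Finset.sum_congr rfl fun l _ => ?_
    rw [resc, div_pow, ← wt_succ, pow_succ c]
    field_simp

variable (F) in
include F in
theorem resc_ne {x : Ω} (h0 : x ≠ 0) (l : Fin (s + 1)) : resc k j x l ≠ 0 :=
  mul_ne_zero (g_ne F l) (pow_ne_zero _ h0)

theorem wt_eq (l : Fin (s + 1)) :
    wt k l = wt k (0 : Fin (s + 1)) * ∑ i ∈ Finset.range (l.1 + 1), Fintype.card k ^ i := by
  rw [wt, wt, Fin.val_zero, zero_add, pow_one, mul_comm,
    geom_sum_mul_of_one_le Fintype.card_pos]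

theorem g_eq {x : Ω} (h0 : x ≠ 0) (l : Fin (s + 1)) :
    g Ω j l = resc k j x l / resc k j x 0 ^ ∑ i ∈ Finset.range (l.1 + 1), Fintype.card k ^ i := by
  simp only [resc, g_zero, one_mul, ← pow_mul]
  rw [← wt_eq, mul_div_cancel_right₀ _ (pow_ne_zero _ h0)]

theorem exists_g (hp : Irreducible p) (hd : p.natDegree = s + 1) (l : Fin (s + 1)) :
    ∃ n d : MvPolynomial (Fin s) F, ∀ c : Ω, Hyp T j p c →
      MvPolynomial.aeval (vv k T j c) d ≠ 0 ∧
      g Ω j l * MvPolynomial.aeval (vv k T j c) d = MvPolynomial.aeval (vv k T j c) n := by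
  let e := ∑ i ∈ Finset.range (l.1 + 1), Fintype.card k ^ i
  refine ⟨nn s p T l * dd k s F ^ e, nn s p T 0 ^ e * dd k s F, fun c H => ?_⟩
  have hd := H.sol.dd_ne (F := F) hp hd
  have h1 := resc_ne F (k := k) (j := j) H.ne 0
  simp only [map_mul, map_pow, ← H.sol.cramer H.deg]
  refine ⟨mul_ne_zero (pow_ne_zero _ (mul_ne_zero h1 hd)) hd, ?_⟩
  rw [g_eq (k := k) H.ne l, mul_pow]
  field_simp
  rfl

theorem aeval_mem_K (v : Fin s → Ω) (a : MvPolynomial (Fin s) F) :
    MvPolynomial.aeval v a ∈ IntermediateField.adjoin (Fsep F Ω) (Set.range v) := by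
  rw [← MvPolynomial.aeval_map_algebraMap (Fsep F Ω)]
  exact aeval_mem_adjoin _

theorem val_F (v P : Fin s → Ω) (a : MvPolynomial (Fin s) F) :
    Val (Fsep F Ω) v P (MvPolynomial.aeval v a) (MvPolynomial.aeval P a) := by
  rw [← MvPolynomial.aeval_map_algebraMap (Fsep F Ω), ← MvPolynomial.aeval_map_algebraMap (Fsep F Ω) P]
  exact Val.poly _

theorem Hyp.jj_mem (H : Hyp T j p c) (i : Fin s) :
    jj Ω j i ∈ IntermediateField.adjoin (Fsep F Ω) (Set.range (vv k T j c)) := by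
  obtain ⟨n, d, h⟩ := exists_g (T := T) (j := j) (Ω := Ω) H.irr H.deg i.succ
  rw [jj, eq_div_of_mul_eq (h c H).1 (h c H).2]
  exact div_mem (aeval_mem_K _ _) (aeval_mem_K _ _)

variable [IsSepClosure E Ω]

theorem Hyp.indep (H : Hyp T j p c) : AlgebraicIndependent (Fsep F Ω) (vv k T j c) :=
  indep_of_sep (jj_indep (j := j)) (sep_of_gen (E := E) (jj Ω j) E_mem' _ fun i =>
    isSeparable_algebraMap (⟨jj Ω j i, H.jj_mem i⟩ :
      IntermediateField.adjoin (Fsep F Ω) (Set.range (vv k T j c))))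

theorem Hyp.scal (H : Hyp T j p c) (H' : Hyp T j p c') (σ : Ω ≃ₐ[E] Ω)
    (hv : ∀ i, σ (vv k T j c i) = vv k T j c' i) :
    ∃ b : k, b ≠ 0 ∧ σ c = aeval (phiT k Ω T j) (C b) c' := by
  have h1 : ∀ a : MvPolynomial (Fin s) F, σ (MvPolynomial.aeval (vv k T j c) a) =
      MvPolynomial.aeval (vv k T j c') a := fun a => by
    induction a using MvPolynomial.induction_on with
    | C a => simp [fix_F]
    | add a b ha hb => simp only [map_add, ha, hb]
    | mul_X a i ha => simp only [map_mul, ha, MvPolynomial.aeval_X, hv]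
  have e := congrArg σ (H.sol.cramer H.deg 0)
  rw [map_mul, h1, h1, ← H'.sol.cramer H.deg 0] at e
  have e' := mul_right_cancel₀ (H'.sol.dd_ne H.irr H.deg) e
  simp only [resc, g_zero, one_mul, map_pow] at e'
  have hσ : σ c ≠ 0 := (_root_.map_ne_zero σ).2 H.ne
  obtain ⟨b, hb⟩ := mem_of_pow_q (k := k) (b := σ c / c') (by
    have := wt_succ (k := k) (0 : Fin (s + 1))
    rw [Fin.val_zero, zero_add, pow_one] at this
    rw [← this, pow_succ, div_pow, e', div_self (pow_ne_zero _ H'.ne), one_mul])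
  refine ⟨b, fun e => ?_, ?_⟩
  · rw [e, map_zero] at hb
    exact div_ne_zero hσ H'.ne hb.symm
  · rw [aeval_C, Module.algebraMap_end_apply, Algebra.smul_def, hb, div_mul_cancel₀ _ H'.ne]

theorem Hyp.sigma (H : Hyp T j p c) (H' : Hyp T j p c') (ρ : Fsep F Ω ≃ₐ[F] Fsep F Ω) :
    ∃ σ : Ω ≃ₐ[E] Ω, (∀ y : Fsep F Ω, σ y = ρ y) ∧ ∀ i, σ (vv k T j c i) = vv k T j c' i := by
  have hm : ∀ a : MvPolynomial (Fin s) F, MvPolynomial.map (ρ : Fsep F Ω →+* Fsep F Ω)
      (MvPolynomial.map (algebraMap F (Fsep F Ω)) a) = MvPolynomial.map (algebraMap F _) a :=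
    fun a => by
      rw [MvPolynomial.map_map]
      congr 2
      exact RingHom.ext ρ.commutes
  obtain ⟨σ, hσ⟩ := exists_sigma (E := E) H.indep H'.indep (ρ : Fsep F Ω →+* Fsep F Ω)
    (Set.range (algebraMap F Ω) ∪ Set.range (jj Ω j)) E_mem (by
      rintro _ (⟨a, rfl⟩ | ⟨i, rfl⟩)
      · exact ⟨MvPolynomial.C (algebraMap _ _ a), 1, by simp, by simp, by simp⟩
      · obtain ⟨n, d, h⟩ := exists_g (T := T) (j := j) (Ω := Ω) H.irr H.deg i.succ
        refine ⟨MvPolynomial.map (algebraMap F _) n, MvPolynomial.map (algebraMap F _) d, ?_⟩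
        simp only [hm, MvPolynomial.aeval_map_algebraMap]
        exact ⟨(h c H).1, (h c H).2, (h c' H').2⟩)
  exact ⟨σ, fun y => by simpa using hσ (MvPolynomial.C y),
    fun i => by simpa using hσ (MvPolynomial.X i)⟩

theorem not_dvd_C (hp : Irreducible p) {b : k} (hb : b ≠ 0) : ¬ p ∣ C b := fun h =>
  hp.not_isUnit (isUnit_of_dvd_unit h (isUnit_C.2 hb.isUnit))

theorem Hyp.le (H : Hyp T j p c) {z : Ω} (hz : z ∈ funField k T j c) :
    z ∈ IntermediateField.adjoin (Fsep F Ω) (Set.range (vv k T j c)) := by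
  let N := IntermediateField.adjoin (Fsep F Ω) (Set.range (vv k T j c))
  have hj : IntermediateField.adjoin (Fsep F Ω) (Set.range (jj Ω j)) ≤ N :=
    IntermediateField.adjoin_le_iff.2 (by
      rintro _ ⟨i, rfl⟩
      exact H.jj_mem i)
  let M : IntermediateField E Ω := N.toSubfield.toIntermediateField fun e => hj (E_mem' e)
  change z ∈ M
  rw [← InfiniteGalois.fixedField_fixingSubgroup M, IntermediateField.mem_fixedField_iff]
  intro σ hσ
  rw [IntermediateField.mem_fixingSubgroup_iff] at hσ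
  have hK : ∀ y ∈ Fsep F Ω, σ y = y := fun y hy => hσ y (N.algebraMap_mem ⟨y, hy⟩)
  have hv : ∀ i, vv k T j c i ∈ N := fun i => IntermediateField.subset_adjoin _ _ ⟨i, rfl⟩
  obtain ⟨b, hb, e⟩ := H.scal H σ fun i => hσ _ (hv i)
  exact mem_funField.1 hz σ (gal_of H.lev H.irr (not_dvd_C H.irr hb) e) hK

end Pool.Agent.P.MP_7c5a52_nt.G
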